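import Pool.Agent.TH587.NG.Key
import Pool.Agent.TH880.NB.RegR

set_option autoImplicit false

/-! Asymptotic independence on every weighted plane `P(1, 1, M)` for `n ≥ 4 M` points. -/

namespace Pool.Agent.TH587.NG

open Finset Pool.Agent.TH176.Nag Pool.Agent.TH880.NB

theorem AS_node {n M : ℕ} (hM : 2 ≤ M) {τ : ℝ} (h0 : 0 < τ) (h1 : τ < 1) (hirr : Irrational τ)
    {B : ℝ} (hB : 0 ≤ B) (h : AS n B (4 * M * τ) (4 * M * (1 - τ))) : AS n (B / 2) 0 M := by
  intro η hη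
  obtain ⟨s1, hs1⟩ := h η hη
  obtain ⟨s2, hs2⟩ := exists_large (η := η / 2) (c := 2 * (M : ℝ) + 1) (by positivity)
  refine ⟨max s1 s2, fun s hs α => ?_⟩
  have hs1' := hs1 s ((le_max_left _ _).trans hs)
  have hs2' := hs2 s ((le_max_right _ _).trans hs)
  have hM0 : (0 : ℝ) < M := by
    have : 0 < M := by omega
    exact_mod_cast this
  have hnn : 0 ≤ (B + η) * s / (2 * M) := by positivity
  obtain ⟨d, hd⟩ : ∃ d : ℕ, d = ⌈(B + η) * s / (2 * M)⌉₊ + 1 := ⟨_, rfl⟩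
  have hdr : (d : ℝ) = (⌈(B + η) * s / (2 * M)⌉₊ : ℝ) + 1 := by rw [hd]; push_cast; ring
  have hd1 : (B + η) * s ≤ 2 * M * (d - 1) := by
    have h2 := Nat.le_ceil ((B + η) * s / (2 * M))
    rw [div_le_iff₀ (by positivity)] at h2
    have : (d : ℝ) - 1 = (⌈(B + η) * s / (2 * M)⌉₊ : ℝ) := by rw [hdr]; ring
    rw [this]
    linarith
  have hd2 : (M : ℝ) * d ≤ (B + η) * s / 2 + 2 * M := by
    have h2 := (Nat.ceil_lt_add_one hnn).le
    have h3 : (M : ℝ) * d = M * (⌈(B + η) * s / (2 * M)⌉₊ : ℝ) + M := by rw [hdr]; ring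
    have h4 : (M : ℝ) * (⌈(B + η) * s / (2 * M)⌉₊ : ℝ) ≤ M * ((B + η) * s / (2 * M) + 1) :=
      mul_le_mul_of_nonneg_left h2 hM0.le
    have h5 : (M : ℝ) * ((B + η) * s / (2 * M) + 1) = (B + η) * s / 2 + M := by
      field_simp
    linarith
  have hnode := Rk_node (d := d) hM h0 h1 hirr
    ((hs1' (-(2 * M * (d - 1) * τ))).mono (Reg_mono le_rfl (by nlinarith)))
  refine hnode.image 1 0 0 1 ⌈α⌉ 0 (by norm_num) ?_
  rintro ⟨a, b⟩ ⟨g1, g2, g3⟩
  simp only at g1 g2 g3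
  have g1' : (0 : ℝ) ≤ a := by exact_mod_cast g1
  have g3' : (a : ℝ) + M * b ≤ M * d := by exact_mod_cast g3
  have c1 : α ≤ ⌈α⌉ := Int.le_ceil _
  have c2 : (⌈α⌉ : ℝ) < α + 1 := Int.ceil_lt_add_one _
  refine ⟨by simpa using g2, ?_, ?_⟩
  · simp only
    push_cast
    linarith
  · simp only
    push_cast
    have : (B / 2 + η) * s = (B + η) * s / 2 + η / 2 * s := by ring
    linarith

theorem AS_base' {n : ℕ} (hn1 : 1 ≤ n) {μ ν n' : ℝ} (hμ : 0 ≤ μ) (hν : 0 ≤ ν)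
    (hn : (n : ℝ) ≤ n') (h : μ + ν = n') : AS n n' μ ν := by
  intro η hη
  have hn0 : (0 : ℝ) < n := by exact_mod_cast hn1
  have hn' : 0 < n' := hn0.trans_le hn
  have hsum : μ * n / n' + ν * n / n' = n := by
    rw [← add_div, ← add_mul, h]
    field_simp
  have hμ' : μ * n / n' ≤ μ := by
    rw [div_le_iff₀ hn']
    exact mul_le_mul_of_nonneg_left hn hμ
  have hν' : ν * n / n' ≤ ν := by
    rw [div_le_iff₀ hn']
    exact mul_le_mul_of_nonneg_left hn hν
  refine ⟨0, fun s _ α => ?_⟩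
  refine (Rk_base n s (α := α + (μ - μ * n / n') * s) (μ := μ * n / n') (ν := ν * n / n')
    (by positivity) (by positivity) hsum).mono ?_
  rintro ⟨a, b⟩ ⟨g1, g2, g3⟩
  simp only at g1 g2 g3
  have g1' : (0 : ℝ) ≤ b := by exact_mod_cast g1
  have hbs : (b : ℝ) ≤ s := by
    have h2 : (n : ℝ) * b ≤ n * s := by
      have : (n : ℝ) * b = μ * n / n' * b + ν * n / n' * b := by rw [← add_mul, hsum]
      linarith
    exact le_of_mul_le_mul_left h2 hn0
  have hs0 : (0 : ℝ) ≤ s := Nat.cast_nonneg s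
  have e1 : (μ - μ * n / n') * b ≤ (μ - μ * n / n') * s :=
    mul_le_mul_of_nonneg_left hbs (by linarith)
  have e2 : (ν - ν * n / n') * b ≤ (ν - ν * n / n') * s :=
    mul_le_mul_of_nonneg_left hbs (by linarith)
  have e3 : (n' : ℝ) * s = (μ - μ * n / n') * s + (ν - ν * n / n') * s + n * s := by
    have : n' = (μ - μ * n / n') + (ν - ν * n / n') + n := by linarith
    calc n' * s = ((μ - μ * n / n') + (ν - ν * n / n') + n) * s := by rw [← this]
      _ = _ := by ring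
  have e4 : 0 ≤ η * s := by positivity
  refine ⟨g1, ?_, ?_⟩
  · simp only
    linarith
  · simp only
    have : (n' + η) * s = n' * s + η * s := by ring
    linarith

theorem AS_all {n M : ℕ} (hM : 2 ≤ M) (hn : 4 * M ≤ n) : AS n (√n * √M) 0 M := by
  intro η hη
  have hM0 : (0 : ℝ) < M := by
    have : 0 < M := by omega
    exact_mod_cast this
  have hM1 : (1 : ℝ) ≤ M := by
    have : 1 ≤ M := by omega
    exact_mod_cast this
  have hn0 : (0 : ℝ) < n := by
    have : 0 < n := by omega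
    exact_mod_cast this
  have hn4 : 4 * (M : ℝ) ≤ n := by exact_mod_cast hn
  have hnn : √(n : ℝ) * √(n : ℝ) = n := Real.mul_self_sqrt hn0.le
  have hMM : √(M : ℝ) * √(M : ℝ) = M := Real.mul_self_sqrt hM0.le
  have hsn : 0 < √(n : ℝ) := Real.sqrt_pos.2 hn0
  have hsM : 0 < √(M : ℝ) := Real.sqrt_pos.2 hM0
  have hs2 : 2 * √(M : ℝ) ≤ √(n : ℝ) := by
    apply Real.le_sqrt_of_sq_le
    nlinarith
  have hq : 4 * (M : ℝ) ≤ 2 * (√n * √M) := by nlinarith
  obtain ⟨σ, hσ, hσ1, hσ2⟩ := exists_irrational_btwn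
    (show 2 * (√(n : ℝ) * √(M : ℝ)) < 2 * (√(n : ℝ) * √(M : ℝ)) + η by linarith)
  obtain ⟨v, hv⟩ : ∃ v : ℤ, v = ⌊σ⌋ := ⟨_, rfl⟩
  have hv1 : (v : ℝ) < σ := by
    refine lt_of_le_of_ne (by rw [hv]; exact Int.floor_le σ) ?_
    intro h
    exact hσ ⟨(v : ℚ), by rw [← h]; push_cast; rfl⟩
  have hv2 : σ < v + 1 := by rw [hv]; exact Int.lt_floor_add_one σ
  obtain ⟨τ, hτ⟩ : ∃ τ : ℝ, τ = (σ - v) / ((4 * M : ℕ) : ℝ) := ⟨_, rfl⟩
  have h4M : ((4 * M : ℕ) : ℝ) = 4 * M := by push_cast; ring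
  have hirr : Irrational τ := by
    rw [hτ]
    exact (hσ.sub_intCast v).div_natCast (by omega)
  have h4Mτ : 4 * (M : ℝ) * τ = σ - v := by
    rw [hτ, h4M]
    field_simp
  have h0 : 0 < τ := by
    rw [hτ, h4M]
    have : 0 < σ - v := by linarith
    positivity
  have h1 : τ < 1 := by
    rw [hτ, h4M, div_lt_one (by positivity)]
    linarith
  have hσ0 : 0 < σ := by linarith
  have hσM : 4 * (M : ℝ) ≤ σ := by linarith
  have hbase : AS n (σ ^ 2 / (4 * M)) σ ((σ - 4 * M) * σ / (4 * M)) := by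
    refine AS_base' (by omega) hσ0.le ?_ ?_ ?_
    · have : 0 ≤ σ - 4 * M := by linarith
      positivity
    · rw [le_div_iff₀ (by positivity)]
      have : (2 * (√(n : ℝ) * √(M : ℝ))) ^ 2 ≤ σ ^ 2 := by
        apply pow_le_pow_left₀ (by positivity) hσ1.le
      calc (n : ℝ) * (4 * M) = (2 * (√(n : ℝ) * √(M : ℝ))) ^ 2 := by
            rw [mul_pow, mul_pow, Real.sq_sqrt hn0.le, Real.sq_sqrt hM0.le]; ring
        _ ≤ σ ^ 2 := this
    · field_simp
      ring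
  have hA : AS n σ (4 * M * τ) (4 * M * (1 - τ)) := by
    refine AS.regA (B' := σ ^ 2 / (4 * M)) (μ' := σ) (ν' := (σ - 4 * M) * σ / (4 * M)) 1 v 1 0
      (by norm_num) (by norm_num) ?_ ?_ ?_ ?_ ?_ ?_ hbase
    · push_cast
      rw [h4Mτ]
      linarith
    · push_cast
      have : 4 * (M : ℝ) * (1 - τ) = 4 * M - (σ - v) := by rw [mul_sub, h4Mτ, mul_one]
      rw [this]
      linarith
    · have : 4 * (M : ℝ) * τ + 4 * M * (1 - τ) = 4 * M := by ring
      rw [this]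
      positivity
    · have : 4 * (M : ℝ) * τ + 4 * M * (1 - τ) = 4 * M := by ring
      rw [this]
      push_cast
      rw [one_mul, h4Mτ]
      field_simp
      ring
    · push_cast
      rw [one_mul, one_mul, h4Mτ]
      ring
    · have : 4 * (M : ℝ) * τ + 4 * M * (1 - τ) = 4 * M := by ring
      rw [this]
      push_cast
      have h5 : 4 * (M : ℝ) * (1 - τ) = 4 * M - (σ - v) := by rw [mul_sub, h4Mτ, mul_one]
      rw [one_mul, one_mul, h4Mτ, h5]
      field_simp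
      ring
  obtain ⟨s0, hs0⟩ := AS_node hM h0 h1 hirr hσ0.le hA (η / 2) (by positivity)
  refine ⟨s0, fun s hs α => (hs0 s hs α).mono (Reg_mono le_rfl ?_)⟩
  have hs' : (0 : ℝ) ≤ s := Nat.cast_nonneg s
  have : (σ / 2 + η / 2) * s ≤ (√n * √M + η) * s := mul_le_mul_of_nonneg_right (by linarith) hs'
  linarith

end Pool.Agent.TH587.NG
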