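import Pool.Agent.TH603.EL.Low
import Pool.Agent.TH603.EL.Scal2

/-! The nodal curve `b ^ 2 = a ^ 2 (1 + a) - t` in Hahn series: definitions.

`x = t ^ τ z`, `y = t ^ (1 - τ) z⁻¹` (central curve) or `y = t ^ (1 - τ) z⁻¹ (1 + t ^ s Y)` (tube),
`c ^ 3 - c = (x + y) / 2`, `a = c ^ 2 - 1`, `b = (x - y) / 2`. -/

namespace Pool.Agent.TH587.NG

open Finset Pool.Agent.TH603.EL

variable {F : Type} [Field F]

/-- the scalars -/
noncomputable def sc : F →+* HR F := (incl (F := F)).comp HahnSeries.C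

/-- the coordinate `y` of the central curve -/
noncomputable def yc (F : Type) [Field F] (τ : ℝ) : HR F := tz F (1 - τ) (-1) 0

/-- the coordinate `y` of the tube -/
noncomputable def yt (F : Type) [Field F] (τ s : ℝ) : HR F :=
  tz F (1 - τ) (-1) 0 * (1 + tz F s 0 1)

/-- only monomials `x ^ p y ^ q` occur, i.e. `t ^ (τ p + (1 - τ) q) z ^ (p - q)` -/
def Cen (τ : ℝ) (u : HR F) : Prop :=
  ∀ (e : ℝ) (i j : ℤ), cf u e i j ≠ 0 → j = 0 ∧ ∃ p q : ℕ, i = (p : ℤ) - q ∧ e = τ * p + (1 - τ) * q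

/-- `c` is the root of `c ^ 3 - c = (x + y) / 2` which is `1` modulo positive order -/
structure Rt (τ : ℝ) (y c : HR F) : Prop where
  eq : c ^ 3 - c = sc (1 / 2 : F) * (tz F τ 1 0 + y)
  low : Low (c - 1) (min τ (1 - τ))

/-- the coordinate `b` -/
noncomputable def bb (τ : ℝ) (y : HR F) : HR F := sc (1 / 2 : F) * (tz F τ 1 0 - y)

/-- exponents of the basis of the functions with a pole of order at most `2 l` at infinity -/
def Bs (l : ℕ) : Finset (ℕ × ℕ) :=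
  (range (l + 1)).image (fun k => (k, 0)) ∪ (range (l - 1)).image (fun k => (k, 1))

/-- the value of the polynomial `∑ κ (n, k, ε) t ^ n a ^ k b ^ ε` -/
noncomputable def phi (τ : ℝ) (y c : HR F) (l D : ℕ) (κ : ℕ × ℕ × ℕ → F) : HR F :=
  ∑ n ∈ range D, ∑ k ∈ Bs l,
    sc (κ (n, k)) * (tz F 1 0 0 ^ n * ((c ^ 2 - 1) ^ k.1 * bb τ y ^ k.2))

/-- the values of the polynomials in `A, B` of weighted degree at most `D`, where `A` has
degree `1` and `B` has degree `M` -/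
def VS (A B : HR F) (M D : ℕ) : Set (HR F) :=
  {v | ∃ f : (ℤ × ℤ) →₀ HK F, (∀ m ∈ f.support, 0 ≤ m.1 ∧ 0 ≤ m.2 ∧ m.1 + M * m.2 ≤ (D : ℤ)) ∧
    v = f.sum fun m r => incl r * (A ^ m.1.toNat * B ^ m.2.toNat)}

end Pool.Agent.TH587.NG
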