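import Pool.Agent.TH587.NG.Defs

/-! Faces: the parts `e = τ i` and `e = - (1 - τ) i` of a series in `x`, `y` (helper554, job 4113). -/

set_option autoImplicit false

namespace Pool.Agent.TH587.NG

open Finset Pool.Agent.TH603.EL

variable {F : Type} [Field F]

namespace FaceL

open Scal2

theorem cf_tz (a : ℝ) (i j : ℤ) (e : ℝ) (i' j' : ℤ) :
    cf (tz F a i j) e i' j' = (open Classical in if e = a ∧ i' = i ∧ j' = j then 1 else 0) := by
  classical
  unfold cf tz
  by_cases h : e = a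
  · subst h
    rw [HahnSeries.coeff_single_same, AddMonoidAlgebra.coeff_single, Finsupp.single_apply]
    refine if_congr ?_ rfl rfl
    rw [Prod.mk.injEq]
    constructor
    · rintro ⟨h1, h2⟩
      exact ⟨rfl, h1.symm, h2.symm⟩
    · rintro ⟨_, h1, h2⟩
      exact ⟨h1.symm, h2.symm⟩
  · rw [HahnSeries.coeff_single_of_ne h, if_neg (fun hh => h hh.1)]
    simp

theorem cf_sc (r : F) (e : ℝ) (i j : ℤ) :
    cf (sc r) e i j = (open Classical in if e = 0 ∧ i = 0 ∧ j = 0 then r else 0) := by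
  classical
  unfold sc
  rw [RingHom.comp_apply, cf_incl, HahnSeries.C_apply]
  by_cases h : i = 0 ∧ j = 0
  · rw [if_pos h]
    by_cases he : e = 0
    · rw [he, HahnSeries.coeff_single_same, if_pos ⟨rfl, h⟩]
    · rw [HahnSeries.coeff_single_of_ne he, if_neg (fun hh => he hh.1)]
  · rw [if_neg h, if_neg (fun hh => h hh.2)]

theorem cf_neg (x : HR F) (a : ℝ) (i j : ℤ) : cf (-x) a i j = -cf x a i j := by
  simp [cf]

theorem cf_zero (a : ℝ) (i j : ℤ) : cf (0 : HR F) a i j = 0 := by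
  simp [cf]

theorem cf_mul_ne {x y : HR F} {a : ℝ} {i j : ℤ} (h : cf (x * y) a i j ≠ 0) :
    ∃ (a1 : ℝ) (i1 j1 : ℤ), cf x a1 i1 j1 ≠ 0 ∧ cf y (a - a1) (i - i1) (j - j1) ≠ 0 := by
  by_contra hcon
  push Not at hcon
  apply h
  rw [cf_mul]
  apply finsum_eq_zero_of_forall_eq_zero
  intro p
  unfold sm
  by_cases h1 : cf x p.1 p.2.1 p.2.2 = 0
  · rw [h1, zero_mul]
  · rw [hcon _ _ _ h1, mul_zero]

end FaceL

open FaceL Scal2

theorem Cen.add {τ : ℝ} {u v : HR F} (hu : Cen τ u) (hv : Cen τ v) : Cen τ (u + v) := by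
  intro e i j h
  rw [cf_add] at h
  by_cases h1 : cf u e i j = 0
  · rw [h1, zero_add] at h
    exact hv e i j h
  · exact hu e i j h1

theorem Cen.mul {τ : ℝ} {u v : HR F} (hu : Cen τ u) (hv : Cen τ v) : Cen τ (u * v) := by
  intro e i j h
  obtain ⟨a1, i1, j1, h1, h2⟩ := cf_mul_ne h
  obtain ⟨hj1, p1, q1, hi1, ha1⟩ := hu _ _ _ h1
  obtain ⟨hj2, p2, q2, hi2, ha2⟩ := hv _ _ _ h2
  refine ⟨by omega, p1 + p2, q1 + q2, by push_cast; omega, ?_⟩
  push_cast
  linarith

theorem Cen.sc (τ : ℝ) (r : F) : Cen τ (sc r) := by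
  classical
  intro e i j h
  rw [cf_sc] at h
  split_ifs at h with h1
  · obtain ⟨rfl, rfl, rfl⟩ := h1
    exact ⟨rfl, 0, 0, by simp, by simp⟩
  · exact absurd rfl h

theorem Cen.neg {τ : ℝ} {u : HR F} (hu : Cen τ u) : Cen τ (-u) := by
  intro e i j h
  rw [cf_neg] at h
  exact hu e i j (fun h1 => h (by rw [h1, neg_zero]))

theorem Cen.sub {τ : ℝ} {u v : HR F} (hu : Cen τ u) (hv : Cen τ v) : Cen τ (u - v) := by
  rw [sub_eq_add_neg]
  exact hu.add hv.neg

theorem Cen.zero (τ : ℝ) : Cen τ (0 : HR F) := by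
  intro e i j h
  exact absurd (cf_zero e i j) h

theorem Cen.one (τ : ℝ) : Cen τ (1 : HR F) := by
  have := Cen.sc τ (1 : F)
  rwa [map_one] at this

theorem Cen.pow {τ : ℝ} {u : HR F} (hu : Cen τ u) (n : ℕ) : Cen τ (u ^ n) := by
  induction n with
  | zero => rw [pow_zero]; exact Cen.one τ
  | succ n ih => rw [pow_succ]; exact ih.mul hu

theorem Cen.sum {κ : Type*} {τ : ℝ} (s : Finset κ) (f : κ → HR F) (h : ∀ k ∈ s, Cen τ (f k)) :
    Cen τ (∑ k ∈ s, f k) := by
  classical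
  induction s using Finset.induction_on with
  | empty => rw [Finset.sum_empty]; exact Cen.zero τ
  | insert a s ha ih =>
    rw [Finset.sum_insert ha]
    exact (h a (Finset.mem_insert_self _ _)).add (ih fun k hk => h k (Finset.mem_insert_of_mem hk))

theorem Cen.x (τ : ℝ) : Cen τ (tz F τ 1 0) := by
  classical
  intro e i j h
  rw [cf_tz] at h
  split_ifs at h with h1
  · obtain ⟨rfl, rfl, rfl⟩ := h1
    exact ⟨rfl, 1, 0, by simp, by simp⟩
  · exact absurd rfl h

theorem Cen.y (τ : ℝ) : Cen τ (yc F τ) := by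
  classical
  intro e i j h
  unfold yc at h
  rw [cf_tz] at h
  split_ifs at h with h1
  · obtain ⟨rfl, rfl, rfl⟩ := h1
    exact ⟨rfl, 0, 1, by simp, by simp⟩
  · exact absurd rfl h

theorem Cen.t (τ : ℝ) : Cen τ (tz F 1 0 0) := by
  classical
  intro e i j h
  rw [cf_tz] at h
  split_ifs at h with h1
  · obtain ⟨rfl, rfl, rfl⟩ := h1
    exact ⟨rfl, 1, 1, by simp, by simp⟩
  · exact absurd rfl h

theorem Cen.bb (τ : ℝ) : Cen τ (bb τ (yc F τ)) := by
  unfold NG.bb
  exact (Cen.sc τ _).mul ((Cen.x τ).sub (Cen.y τ))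

theorem Cen.phi {τ : ℝ} {c : HR F} (hc : Cen τ c) (l D : ℕ) (κ : ℕ × ℕ × ℕ → F) :
    Cen τ (phi τ (yc F τ) c l D κ) := by
  unfold NG.phi
  refine Cen.sum _ _ fun n _ => Cen.sum _ _ fun k _ => ?_
  exact (Cen.sc τ _).mul (((Cen.t τ).pow n).mul
    ((((hc.pow 2).sub (Cen.one τ)).pow k.1).mul ((Cen.bb τ).pow k.2)))

namespace FaceL

/-- the terms of `u` are on one side of the face -/
def Fc (θ : ℝ) (s : ℤ) (u : HR F) : Prop := ∀ (e : ℝ) (i j : ℤ), cf u e i j ≠ 0 →
  θ * ((s * i : ℤ) : ℝ) ≤ e ∧ (e = θ * ((s * i : ℤ) : ℝ) → j = 0 ∧ 0 ≤ s * i)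

/-- the face -/
noncomputable def fa (θ : ℝ) (s : ℤ) (u : HR F) : PowerSeries F :=
  PowerSeries.mk fun n => cf u (θ * n) (s * n) 0

theorem coeff_fa (θ : ℝ) (s : ℤ) (u : HR F) (n : ℕ) :
    PowerSeries.coeff n (fa θ s u) = cf u (θ * n) (s * n) 0 := by
  unfold fa
  rw [PowerSeries.coeff_mk]

theorem Cen.fx {τ : ℝ} {u : HR F} (hu : Cen τ u) : Fc τ 1 u := by
  intro e i j h
  obtain ⟨hj, p, q, hi, he⟩ := hu e i j h
  rw [one_mul]
  have hir : (i : ℝ) = p - q := by rw [hi]; push_cast; ring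
  have hq : (0 : ℝ) ≤ q := Nat.cast_nonneg q
  refine ⟨by rw [hir, he]; nlinarith, fun h1 => ⟨hj, ?_⟩⟩
  have h2 : (q : ℝ) = 0 := by
    rw [hir, he] at h1
    nlinarith
  have h3 : q = 0 := by exact_mod_cast h2
  omega

theorem Cen.fy {τ : ℝ} {u : HR F} (hu : Cen τ u) : Fc (1 - τ) (-1) u := by
  intro e i j h
  obtain ⟨hj, p, q, hi, he⟩ := hu e i j h
  have hir : (((-1 : ℤ) * i : ℤ) : ℝ) = q - p := by rw [hi]; push_cast; ring
  have hp : (0 : ℝ) ≤ p := Nat.cast_nonneg p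
  refine ⟨by rw [hir, he]; nlinarith, fun h1 => ⟨hj, ?_⟩⟩
  have h2 : (p : ℝ) = 0 := by
    rw [hir, he] at h1
    nlinarith
  have h3 : p = 0 := by exact_mod_cast h2
  omega

theorem Fc.add {θ : ℝ} {s : ℤ} {u v : HR F} (hu : Fc θ s u) (hv : Fc θ s v) : Fc θ s (u + v) := by
  intro e i j h
  rw [cf_add] at h
  by_cases h1 : cf u e i j = 0
  · rw [h1, zero_add] at h
    exact hv e i j h
  · exact hu e i j h1

theorem Fc.neg {θ : ℝ} {s : ℤ} {u : HR F} (hu : Fc θ s u) : Fc θ s (-u) := by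
  intro e i j h
  rw [cf_neg] at h
  exact hu e i j (fun h1 => h (by rw [h1, neg_zero]))

theorem Fc.mul {θ : ℝ} {s : ℤ} {u v : HR F} (hu : Fc θ s u) (hv : Fc θ s v) : Fc θ s (u * v) := by
  intro e i j h
  obtain ⟨a1, i1, j1, h1, h2⟩ := cf_mul_ne h
  obtain ⟨h3, h4⟩ := hu _ _ _ h1
  obtain ⟨h5, h6⟩ := hv _ _ _ h2
  have h7 : θ * ((s * i : ℤ) : ℝ) = θ * ((s * i1 : ℤ) : ℝ) + θ * ((s * (i - i1) : ℤ) : ℝ) := by
    push_cast
    ring
  refine ⟨by linarith, fun h8 => ?_⟩
  obtain ⟨h9, h10⟩ := h4 (by linarith)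
  obtain ⟨h11, h12⟩ := h6 (by linarith)
  refine ⟨by omega, ?_⟩
  have : s * i = s * i1 + s * (i - i1) := by ring
  omega

theorem fa_mul {θ : ℝ} {s : ℤ} (hs : s * s = 1) {u v : HR F} (hu : Fc θ s u) (hv : Fc θ s v) :
    fa θ s (u * v) = fa θ s u * fa θ s v := by
  classical
  ext n
  rw [PowerSeries.coeff_mul, coeff_fa, cf_mul]
  simp only [coeff_fa]
  set g : ℕ × ℕ → ℝ × (ℤ × ℤ) := fun q => (θ * q.1, (s * q.1, 0)) with hg
  rw [finsum_eq_sum_of_support_subset (s := (Finset.HasAntidiagonal.antidiagonal n).image g)]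
  · rw [Finset.sum_image]
    · refine Finset.sum_congr rfl fun q hq => ?_
      rw [Finset.HasAntidiagonal.mem_antidiagonal] at hq
      unfold sm
      rw [hg]
      simp only
      have h1 : θ * (n : ℝ) - θ * (q.1 : ℝ) = θ * (q.2 : ℝ) := by
        rw [← hq]
        push_cast
        ring
      have h2 : s * (n : ℤ) - s * (q.1 : ℤ) = s * (q.2 : ℤ) := by
        rw [← hq]
        push_cast
        ring
      rw [h1, h2, sub_zero]
    · intro q hq q' hq' hqq
      rw [Finset.mem_coe, Finset.HasAntidiagonal.mem_antidiagonal] at hq hq'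
      rw [hg] at hqq
      simp only [Prod.mk.injEq] at hqq
      have h1 : s * (s * (q.1 : ℤ)) = s * (s * (q'.1 : ℤ)) := by rw [hqq.2.1]
      rw [← mul_assoc, ← mul_assoc, hs, one_mul, one_mul] at h1
      have h2 : q.1 = q'.1 := by exact_mod_cast h1
      refine Prod.ext h2 ?_
      omega
  · rintro ⟨a1, i1, j1⟩ hp
    have h1 : cf u a1 i1 j1 ≠ 0 := left_ne_zero_of_mul hp
    have h2 : cf v (θ * n - a1) (s * n - i1) (0 - j1) ≠ 0 := right_ne_zero_of_mul hp
    obtain ⟨h3, h4⟩ := hu _ _ _ h1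
    obtain ⟨h5, h6⟩ := hv _ _ _ h2
    have h7 : s * (s * (n : ℤ) - i1) = n - s * i1 := by
      rw [mul_sub, ← mul_assoc, hs, one_mul]
    have h8 : θ * (n : ℝ) = θ * ((s * i1 : ℤ) : ℝ) + θ * ((s * (s * (n : ℤ) - i1) : ℤ) : ℝ) := by
      rw [h7]
      push_cast
      ring
    have h9 : a1 = θ * ((s * i1 : ℤ) : ℝ) := by linarith
    obtain ⟨h10, h11⟩ := h4 h9
    obtain ⟨h12, h13⟩ := h6 (by linarith)
    rw [h7] at h13
    obtain ⟨m, hm⟩ := Int.eq_ofNat_of_zero_le h11
    have hmn : m ≤ n := by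
      rw [hm] at h13
      omega
    have hi1 : i1 = s * m := by
      calc i1 = (s * s) * i1 := by rw [hs, one_mul]
        _ = s * (s * i1) := by ring
        _ = s * m := by rw [hm]
    rw [Finset.mem_coe, Finset.mem_image]
    refine ⟨(m, n - m), ?_, ?_⟩
    · rw [Finset.HasAntidiagonal.mem_antidiagonal]
      simp only
      omega
    · rw [hg]
      simp only
      rw [h9, hm, hi1, h10]
      simp

theorem fa_add (θ : ℝ) (s : ℤ) (u v : HR F) : fa θ s (u + v) = fa θ s u + fa θ s v := by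
  ext n
  rw [map_add, coeff_fa, coeff_fa, coeff_fa, cf_add]

theorem Fc.sc {θ : ℝ} (s : ℤ) (r : F) : Fc θ s (sc r) := by
  classical
  intro e i j h
  rw [cf_sc] at h
  split_ifs at h with h1
  · obtain ⟨rfl, rfl, rfl⟩ := h1
    simp
  · exact absurd rfl h

theorem fa_sc {θ : ℝ} {s : ℤ} (hs : s * s = 1) (r : F) : fa θ s (sc r) = PowerSeries.C r := by
  classical
  ext n
  rw [coeff_fa, cf_sc, PowerSeries.coeff_C]
  have hs0 : s ≠ 0 := by
    rintro rfl
    simp at hs
  by_cases hn : n = 0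
  · subst hn
    simp
  · rw [if_neg hn, if_neg]
    rintro ⟨_, h, _⟩
    rcases mul_eq_zero.1 h with h | h
    · exact hs0 h
    · exact hn (by exact_mod_cast h)

/-- the subring of the series on one side of the face -/
noncomputable def FR (F : Type) [Field F] (θ : ℝ) (s : ℤ) : Subring (HR F) where
  carrier := {u | Fc θ s u}
  mul_mem' := fun hu hv => Fc.mul hu hv
  one_mem' := by
    have := Fc.sc (θ := θ) s (1 : F)
    rwa [map_one] at this
  add_mem' := fun hu hv => Fc.add hu hv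
  zero_mem' := by
    intro e i j h
    exact absurd (cf_zero e i j) h
  neg_mem' := fun hu => Fc.neg hu

/-- the face homomorphism -/
noncomputable def fh (F : Type) [Field F] (θ : ℝ) {s : ℤ} (hs : s * s = 1) :
    FR F θ s →+* PowerSeries F where
  toFun u := fa θ s u.1
  map_one' := by
    have := fa_sc (θ := θ) hs (1 : F)
    rw [map_one, map_one] at this
    exact this
  map_mul' u v := fa_mul hs u.2 v.2
  map_zero' := by
    have := fa_sc (θ := θ) hs (0 : F)
    rw [map_zero, map_zero] at this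
    exact this
  map_add' u v := fa_add θ s u.1 v.1

/-- the reduced polynomial -/
noncomputable def GG (l : ℕ) (κ : ℕ × ℕ × ℕ → F) : Polynomial F :=
  ∑ k ∈ Bs l, Polynomial.C (κ (0, k)) *
    ((Polynomial.X ^ 2 - 1) ^ k.1 * (Polynomial.X ^ 3 - Polynomial.X) ^ k.2)

/-- the face of `phi` -/
theorem fa_phi {τ θ : ℝ} {s : ℤ} (hs : s * s = 1) {c : HR F} (hc : Fc θ s c)
    (hx : Fc θ s (tz F τ 1 0)) (hy : Fc θ s (yc F τ)) (ht : Fc θ s (tz F 1 0 0))
    (ht0 : fa θ s (tz F 1 0 0) = 0) {w : PowerSeries F} (h1 : w ^ 2 = fa θ s c ^ 2)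
    (h2 : w ^ 3 - w = PowerSeries.C (1 / 2 : F) * (fa θ s (tz F τ 1 0) - fa θ s (yc F τ)))
    {l D : ℕ} (hD : 0 < D) (κ : ℕ × ℕ × ℕ → F) :
    fa θ s (phi τ (yc F τ) c l D κ) = Polynomial.aeval w (GG l κ) := by
  set c' : FR F θ s := ⟨c, hc⟩ with hc'
  set x' : FR F θ s := ⟨tz F τ 1 0, hx⟩ with hx'
  set y' : FR F θ s := ⟨yc F τ, hy⟩ with hy'
  set t' : FR F θ s := ⟨tz F 1 0 0, ht⟩ with ht'
  set s' : F → FR F θ s := fun r => ⟨NG.sc r, Fc.sc s r⟩ with hs'
  have e1 : phi τ (yc F τ) c l D κ =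
      ((∑ n ∈ range D, ∑ k ∈ Bs l, s' (κ (n, k)) * (t' ^ n * ((c' ^ 2 - 1) ^ k.1 *
        (s' (1 / 2) * (x' - y')) ^ k.2)) : FR F θ s) : HR F) := by
    push_cast
    rfl
  have e2 : fa θ s (phi τ (yc F τ) c l D κ) = fh F θ hs (∑ n ∈ range D, ∑ k ∈ Bs l,
      s' (κ (n, k)) * (t' ^ n * ((c' ^ 2 - 1) ^ k.1 * (s' (1 / 2) * (x' - y')) ^ k.2))) := by
    rw [e1]
    rfl
  have e3 : fh F θ hs t' = 0 := ht0
  have e4 : ∀ r, fh F θ hs (s' r) = PowerSeries.C r := fun r => fa_sc hs r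
  have e5 : fh F θ hs (s' (1 / 2) * (x' - y')) = w ^ 3 - w := by
    rw [map_mul, map_sub, e4, h2]
    rfl
  have e6 : fh F θ hs (c' ^ 2 - 1) = w ^ 2 - 1 := by
    rw [map_sub, map_one, map_pow, h1]
    rfl
  have e7 : Polynomial.aeval w (GG l κ) = ∑ k ∈ Bs l, PowerSeries.C (κ (0, k)) *
      ((w ^ 2 - 1) ^ k.1 * (w ^ 3 - w) ^ k.2) := by
    unfold GG
    rw [map_sum]
    refine Finset.sum_congr rfl fun k _ => ?_
    rw [map_mul, map_mul, map_pow, map_pow, map_sub, map_sub, map_pow, map_pow, map_one,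
      Polynomial.aeval_X, Polynomial.aeval_C, PowerSeries.algebraMap_apply]
    rfl
  rw [e2, e7, map_sum, Finset.sum_eq_single 0]
  · rw [map_sum]
    refine Finset.sum_congr rfl fun k _ => ?_
    rw [map_mul, map_mul, map_mul, map_pow, map_pow, map_pow, e3, e4, e5, e6, pow_zero, one_mul]
  · intro n _ hn
    rw [map_sum]
    refine Finset.sum_eq_zero fun k _ => ?_
    rw [map_mul, map_mul, map_pow, e3, zero_pow hn, zero_mul, mul_zero]
  · intro h
    exact absurd (Finset.mem_range.2 hD) h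

/-- the order of the value of a polynomial at a power series -/
theorem order_aeval [CharZero F] {G : Polynomial F} (hG : G ≠ 0) {r μ : F} (hr : r ^ 2 = 1)
    (hμ : μ ≠ 0) {w : PowerSeries F} (hw0 : PowerSeries.constantCoeff w = r)
    (hw : w ^ 3 - w = PowerSeries.C μ * PowerSeries.X) :
    PowerSeries.coeff (G.rootMultiplicity r) (Polynomial.aeval w G) ≠ 0 := by
  obtain ⟨G1, hG1, hdvd⟩ := Polynomial.exists_eq_pow_rootMultiplicity_mul_and_not_dvd G hG r
  set α := G.rootMultiplicity r with hα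
  have hG1r : G1.eval r ≠ 0 := by
    intro h
    exact hdvd (Polynomial.dvd_iff_isRoot.2 h)
  obtain ⟨w1, hw1⟩ : PowerSeries.X ∣ w - PowerSeries.C r := by
    rw [PowerSeries.X_dvd_iff, map_sub, hw0, PowerSeries.constantCoeff_C, sub_self]
  have hr' : (PowerSeries.C r : PowerSeries F) * PowerSeries.C r = 1 := by
    rw [← map_mul, ← sq, hr, map_one]
  have h1 : PowerSeries.X * (w1 * w * (w + PowerSeries.C r)) =
      PowerSeries.X * (PowerSeries.C μ : PowerSeries F) := by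
    rw [mul_comm PowerSeries.X (PowerSeries.C μ), ← hw]
    have : PowerSeries.X * (w1 * w * (w + PowerSeries.C r)) =
        (PowerSeries.X * w1) * w * (w + PowerSeries.C r) := by ring
    rw [this, ← hw1]
    linear_combination (-w) * hr'
  have h2 : w1 * w * (w + PowerSeries.C r) = (PowerSeries.C μ : PowerSeries F) :=
    mul_left_cancel₀ PowerSeries.X_ne_zero h1
  have h3 : PowerSeries.constantCoeff w1 ≠ 0 := by
    intro h
    have h4 := congrArg PowerSeries.constantCoeff h2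
    rw [map_mul, map_mul, h, zero_mul, zero_mul, PowerSeries.constantCoeff_C] at h4
    exact hμ h4.symm
  have h4 : Polynomial.aeval w G = PowerSeries.X ^ α * (w1 ^ α * Polynomial.aeval w G1) := by
    conv_lhs => rw [hG1]
    rw [map_mul, map_pow, map_sub, Polynomial.aeval_X, Polynomial.aeval_C,
      PowerSeries.algebraMap_apply, ← mul_assoc, ← mul_pow, ← hw1]
    rfl
  have h5 : PowerSeries.constantCoeff (Polynomial.aeval w G1) = G1.eval r := by
    rw [Polynomial.aeval_def, Polynomial.hom_eval₂, hw0]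
    congr 1
  rw [h4, PowerSeries.coeff_X_pow_mul', if_pos le_rfl, Nat.sub_self,
    PowerSeries.coeff_zero_eq_constantCoeff_apply, map_mul, map_pow, h5]
  exact mul_ne_zero (pow_ne_zero _ h3) hG1r


/-- the polynomials in `u ^ 2 - 1` -/
noncomputable def PP (N : ℕ) (a : ℕ → F) : Polynomial F :=
  ∑ k ∈ range N, Polynomial.C (a k) * Polynomial.X ^ k

theorem PP_coeff (N : ℕ) (a : ℕ → F) {k : ℕ} (hk : k < N) : (PP N a).coeff k = a k := by
  unfold PP
  rw [Polynomial.finsetSum_coeff]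
  simp only [Polynomial.coeff_C_mul_X_pow]
  rw [Finset.sum_eq_single k]
  · simp
  · intro b _ hb
    rw [if_neg (fun h => hb h.symm)]
  · intro h
    exact absurd (Finset.mem_range.2 hk) h

theorem GG_eq (l : ℕ) (κ : ℕ × ℕ × ℕ → F) :
    GG l κ = (PP (l + 1) fun k => κ (0, k, 0)).comp (Polynomial.X ^ 2 - 1) +
      (PP (l - 1) fun k => κ (0, k, 1)).comp (Polynomial.X ^ 2 - 1) *
        (Polynomial.X ^ 3 - Polynomial.X) := by
  classical
  unfold GG Bs PP
  rw [Finset.sum_union, Finset.sum_image, Finset.sum_image, Polynomial.sum_comp,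
    Polynomial.sum_comp, Finset.sum_mul]
  · congr 1
    · refine Finset.sum_congr rfl fun k _ => ?_
      simp
    · refine Finset.sum_congr rfl fun k _ => ?_
      simp [mul_assoc]
  · intro a _ b _ h
    exact (Prod.mk.injEq _ _ _ _ ▸ h).1
  · intro a _ b _ h
    exact (Prod.mk.injEq _ _ _ _ ▸ h).1
  · rw [Finset.disjoint_left]
    intro a ha hb
    obtain ⟨x, _, hx⟩ := Finset.mem_image.1 ha
    obtain ⟨y, _, hy⟩ := Finset.mem_image.1 hb
    rw [← hx, Prod.mk.injEq] at hy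
    exact absurd hy.2 one_ne_zero

theorem nd2 : (Polynomial.X ^ 2 - 1 : Polynomial F).natDegree = 2 := by
  have := Polynomial.natDegree_X_pow_sub_C (n := 2) (r := (1 : F))
  rwa [map_one] at this

theorem comp_ne {P : Polynomial F} (hP : P ≠ 0) : P.comp (Polynomial.X ^ 2 - 1) ≠ 0 := by
  intro h
  rw [Polynomial.comp_eq_zero_iff] at h
  rcases h with h | ⟨_, h⟩
  · exact hP h
  · have h1 := congrArg Polynomial.natDegree h
    rw [nd2, Polynomial.natDegree_C] at h1
    omega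

theorem GG_ne_zero {l : ℕ} {κ : ℕ × ℕ × ℕ → F} (hκ : ∃ k ∈ Bs l, κ (0, k) ≠ 0) : GG l κ ≠ 0 := by
  classical
  intro h
  rw [GG_eq] at h
  set P := PP (l + 1) fun k => κ (0, k, 0) with hP
  set Q := PP (l - 1) fun k => κ (0, k, 1) with hQ
  have hx3 : (Polynomial.X ^ 3 - Polynomial.X : Polynomial F) =
      Polynomial.X * (Polynomial.X ^ 2 - 1) := by ring
  have hx2 : (Polynomial.X ^ 2 - 1 : Polynomial F) ≠ 0 := by
    intro h
    have h1 := congrArg Polynomial.natDegree h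
    rw [nd2, Polynomial.natDegree_zero] at h1
    omega
  have hQ0 : Q = 0 := by
    by_contra hQ0
    have h2 := comp_ne hQ0
    have h3 : (Q.comp (Polynomial.X ^ 2 - 1) * (Polynomial.X ^ 3 - Polynomial.X)).natDegree =
        Q.natDegree * 2 + 3 := by
      rw [hx3, Polynomial.natDegree_mul h2 (mul_ne_zero Polynomial.X_ne_zero hx2),
        Polynomial.natDegree_mul Polynomial.X_ne_zero hx2, Polynomial.natDegree_comp, nd2,
        Polynomial.natDegree_X]
    have h4 : P.comp (Polynomial.X ^ 2 - 1) =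
        -(Q.comp (Polynomial.X ^ 2 - 1) * (Polynomial.X ^ 3 - Polynomial.X)) :=
      eq_neg_of_add_eq_zero_left h
    have h5 := congrArg Polynomial.natDegree h4
    rw [Polynomial.natDegree_neg, h3, Polynomial.natDegree_comp, nd2] at h5
    omega
  have hP0 : P = 0 := by
    by_contra hP0
    apply comp_ne hP0
    rw [hQ0, Polynomial.zero_comp, zero_mul, add_zero] at h
    exact h
  obtain ⟨k, hk, hk0⟩ := hκ
  unfold Bs at hk
  rw [Finset.mem_union, Finset.mem_image, Finset.mem_image] at hk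
  rcases hk with ⟨a, ha, rfl⟩ | ⟨a, ha, rfl⟩
  · apply hk0
    rw [← PP_coeff (l + 1) (fun k => κ (0, k, 0)) (Finset.mem_range.1 ha), ← hP, hP0,
      Polynomial.coeff_zero]
  · apply hk0
    rw [← PP_coeff (l - 1) (fun k => κ (0, k, 1)) (Finset.mem_range.1 ha), ← hQ, hQ0,
      Polynomial.coeff_zero]

theorem GG_natDegree (l : ℕ) (κ : ℕ × ℕ × ℕ → F) : (GG l κ).natDegree ≤ 2 * l := by
  classical
  unfold GG
  refine Polynomial.natDegree_sum_le_of_forall_le _ _ fun k hk => ?_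
  refine (Polynomial.natDegree_C_mul_le _ _).trans ?_
  refine Polynomial.natDegree_mul_le.trans ?_
  have h1 : ((Polynomial.X ^ 2 - 1 : Polynomial F) ^ k.1).natDegree ≤ k.1 * 2 := by
    refine Polynomial.natDegree_pow_le.trans ?_
    rw [nd2]
  have h2 : ((Polynomial.X ^ 3 - Polynomial.X : Polynomial F) ^ k.2).natDegree ≤ k.2 * 3 := by
    refine Polynomial.natDegree_pow_le.trans ?_
    refine Nat.mul_le_mul_left _ ?_
    refine (Polynomial.natDegree_sub_le _ _).trans ?_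
    rw [Polynomial.natDegree_X_pow, Polynomial.natDegree_X]
    simp
  unfold Bs at hk
  rw [Finset.mem_union, Finset.mem_image, Finset.mem_image] at hk
  rcases hk with ⟨a, ha, rfl⟩ | ⟨a, ha, rfl⟩
  · rw [Finset.mem_range] at ha
    have e1 : ((a, 0) : ℕ × ℕ).1 = a := rfl
    have e2 : ((a, 0) : ℕ × ℕ).2 = 0 := rfl
    omega
  · rw [Finset.mem_range] at ha
    have e1 : ((a, 1) : ℕ × ℕ).1 = a := rfl
    have e2 : ((a, 1) : ℕ × ℕ).2 = 1 := rfl
    omega

theorem mult_le [CharZero F] {G : Polynomial F} (hG : G ≠ 0) :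
    G.rootMultiplicity 1 + G.rootMultiplicity (-1) ≤ G.natDegree := by
  have h1 := Polynomial.pow_rootMultiplicity_dvd G 1
  have h2 := Polynomial.pow_rootMultiplicity_dvd G (-1)
  have h3 : IsCoprime (Polynomial.X - Polynomial.C (1 : F)) (Polynomial.X - Polynomial.C (-1 : F)) := by
    apply Polynomial.isCoprime_X_sub_C_of_isUnit_sub
    rw [isUnit_iff_ne_zero]
    norm_num
  have h4 := (h3.pow (m := G.rootMultiplicity 1) (n := G.rootMultiplicity (-1))).mul_dvd h1 h2
  have h5 := Polynomial.natDegree_le_of_dvd h4 hG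
  rw [Polynomial.natDegree_mul (pow_ne_zero _ (Polynomial.X_sub_C_ne_zero _))
    (pow_ne_zero _ (Polynomial.X_sub_C_ne_zero _)), Polynomial.natDegree_pow,
    Polynomial.natDegree_pow, Polynomial.natDegree_X_sub_C, Polynomial.natDegree_X_sub_C,
    mul_one, mul_one] at h5
  exact h5

theorem c_zero {τ : ℝ} (h0 : 0 < τ) (h1 : τ < 1) {y c : HR F} (hc : Rt τ y c) : cf c 0 0 0 = 1 := by
  have h2 := hc.low 0 (lt_min h0 (by linarith))
  rw [HahnSeries.coeff_sub, sub_eq_zero] at h2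
  unfold cf
  rw [h2, HahnSeries.coeff_one, if_pos rfl, AddMonoidAlgebra.one_def, AddMonoidAlgebra.coeff_single]
  exact Finsupp.single_eq_same

end FaceL

theorem nc [CharZero F] {τ : ℝ} (h0 : 0 < τ) (h1 : τ < 1) {c : HR F} (hc : Rt τ (yc F τ) c)
    (hcen : Cen τ c) {l D : ℕ} {κ : ℕ × ℕ × ℕ → F} (hD : 0 < D) (hκ : ∃ k ∈ Bs l, κ (0, k) ≠ 0) :
    ∃ α β : ℕ, α + β ≤ 2 * l ∧ cf (phi τ (yc F τ) c l D κ) (τ * α) α 0 ≠ 0 ∧
      cf (phi τ (yc F τ) c l D κ) ((1 - τ) * β) (-β) 0 ≠ 0 := by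
  classical
  have hG := GG_ne_zero hκ
  refine ⟨(GG l κ).rootMultiplicity 1, (GG l κ).rootMultiplicity (-1),
    (mult_le hG).trans (GG_natDegree l κ), ?_, ?_⟩
  · -- the face of `x`
    have hs : (1 : ℤ) * 1 = 1 := by norm_num
    have hcx := FaceL.Cen.fx hcen
    have hxx := FaceL.Cen.fx (Cen.x (F := F) τ)
    have hyx := FaceL.Cen.fx (Cen.y (F := F) τ)
    have htx := FaceL.Cen.fx (Cen.t (F := F) τ)
    have e1 : fa τ 1 (tz F τ 1 0) = PowerSeries.X := by
      ext n
      rw [coeff_fa, cf_tz, PowerSeries.coeff_X]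
      refine if_congr ?_ rfl rfl
      constructor
      · rintro ⟨_, h, _⟩
        omega
      · rintro rfl
        simp
    have e2 : fa τ 1 (yc F τ) = 0 := by
      ext n
      unfold yc
      rw [coeff_fa, cf_tz, if_neg, map_zero]
      rintro ⟨_, h, _⟩
      omega
    have e3 : fa τ 1 (tz F 1 0 0) = 0 := by
      ext n
      rw [coeff_fa, cf_tz, if_neg, map_zero]
      rintro ⟨h, h', _⟩
      have : n = 0 := by omega
      rw [this] at h
      simp at h
    set w := fa τ 1 c with hw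
    have e4 : w ^ 3 - w = PowerSeries.C (1 / 2 : F) * (fa τ 1 (tz F τ 1 0) + fa τ 1 (yc F τ)) := by
      have h2 := congrArg (fa τ 1) hc.eq
      have h3 : Fc τ 1 (c ^ 2) := by
        rw [sq]
        exact hcx.mul hcx
      rw [sub_eq_add_neg (c ^ 3) c, fa_add, pow_succ, fa_mul hs h3 hcx, sq, fa_mul hs hcx hcx,
        fa_mul hs (Fc.sc 1 _) (hxx.add hyx), fa_sc hs, fa_add] at h2
      have h4 : fa τ 1 (-c) = -fa τ 1 c := by
        ext n
        rw [coeff_fa, map_neg, coeff_fa, cf_neg]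
      rw [h4] at h2
      rw [← h2]
      ring
    have e5 : PowerSeries.constantCoeff w = 1 := by
      rw [← PowerSeries.coeff_zero_eq_constantCoeff_apply, hw, coeff_fa]
      simpa using c_zero h0 h1 hc
    have e6 := fa_phi hs hcx hxx hyx htx e3 (w := w) rfl (by rw [e4, e2, add_zero, sub_zero]) hD κ
      (l := l)
    have e7 := order_aeval hG (r := 1) (μ := 1 / 2) (by norm_num) (by norm_num) e5
      (by rw [e4, e1, e2, add_zero])
    rw [← e6, coeff_fa, one_mul] at e7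
    exact e7
  · have hs : (-1 : ℤ) * (-1) = 1 := by norm_num
    have hcx := FaceL.Cen.fy hcen
    have hxx := FaceL.Cen.fy (Cen.x (F := F) τ)
    have hyx := FaceL.Cen.fy (Cen.y (F := F) τ)
    have htx := FaceL.Cen.fy (Cen.t (F := F) τ)
    have e1 : fa (1 - τ) (-1) (yc F τ) = PowerSeries.X := by
      ext n
      unfold yc
      rw [coeff_fa, cf_tz, PowerSeries.coeff_X]
      refine if_congr ?_ rfl rfl
      constructor
      · rintro ⟨_, h, _⟩
        omega
      · rintro rfl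
        simp
    have e2 : fa (1 - τ) (-1) (tz F τ 1 0) = 0 := by
      ext n
      rw [coeff_fa, cf_tz, if_neg, map_zero]
      rintro ⟨_, h, _⟩
      omega
    have e3 : fa (1 - τ) (-1) (tz F 1 0 0) = 0 := by
      ext n
      rw [coeff_fa, cf_tz, if_neg, map_zero]
      rintro ⟨h, h', _⟩
      have : n = 0 := by omega
      rw [this] at h
      simp at h
    set w := fa (1 - τ) (-1) c with hw
    have e4 : w ^ 3 - w = PowerSeries.C (1 / 2 : F) *
        (fa (1 - τ) (-1) (tz F τ 1 0) + fa (1 - τ) (-1) (yc F τ)) := by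
      have h2 := congrArg (fa (1 - τ) (-1)) hc.eq
      have h3 : Fc (1 - τ) (-1) (c ^ 2) := by
        rw [sq]
        exact hcx.mul hcx
      rw [sub_eq_add_neg (c ^ 3) c, fa_add, pow_succ, fa_mul hs h3 hcx, sq, fa_mul hs hcx hcx,
        fa_mul hs (Fc.sc (-1) _) (hxx.add hyx), fa_sc hs, fa_add] at h2
      have h4 : fa (1 - τ) (-1) (-c) = -fa (1 - τ) (-1) c := by
        ext n
        rw [coeff_fa, map_neg, coeff_fa, cf_neg]
      rw [h4] at h2
      rw [← h2]
      ring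
    have e5 : PowerSeries.constantCoeff (-w) = -1 := by
      rw [map_neg, ← PowerSeries.coeff_zero_eq_constantCoeff_apply, hw, coeff_fa]
      congr 1
      simpa using c_zero h0 h1 hc
    have e8 : (-w) ^ 3 - (-w) = PowerSeries.C (1 / 2 : F) *
        (fa (1 - τ) (-1) (tz F τ 1 0) - fa (1 - τ) (-1) (yc F τ)) := by
      rw [e2, zero_add] at e4
      rw [e2, zero_sub]
      linear_combination -e4
    have e6 := fa_phi hs hcx hxx hyx htx e3 (w := -w) (by rw [neg_sq]) e8 hD κ (l := l)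
    have e7 := order_aeval hG (r := -1) (μ := -(1 / 2)) (by norm_num) (by norm_num) e5
      (by rw [e8, e1, e2, map_neg, zero_sub]; ring)
    rw [← e6, coeff_fa, neg_one_mul] at e7
    exact e7

end Pool.Agent.TH587.NG
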