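import Pool.Agent.TH587.NG.Defs
import Pool.Agent.TH587.NG.Face

/-! The leading exponents of the functions on the nodal curve: every integer of the interval
occurs. -/

set_option autoImplicit false

namespace Pool.Agent.TH587.NG

open Finset Pool.Agent.TH603.EL

variable {F : Type} [Field F]

namespace Exl

theorem irr_eq {τ : ℝ} (hirr : Irrational τ) {a b : ℤ} (h : τ * a = b) : a = 0 ∧ b = 0 := by
  by_cases ha : a = 0
  · subst ha
    refine ⟨rfl, ?_⟩
    simp only [Int.cast_zero, mul_zero] at h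
    exact_mod_cast h.symm
  · exfalso
    apply hirr
    refine ⟨(b : ℚ) / a, ?_⟩
    have ha' : (a : ℝ) ≠ 0 := by exact_mod_cast ha
    push_cast
    rw [← h]
    field_simp

theorem cf_sc_mul (a : F) (u : HR F) (e : ℝ) (i j : ℤ) : cf (sc a * u) e i j = a * cf u e i j := by
  rw [Scal2.cf_mul]
  have h0 : ∀ p : ℝ × (ℤ × ℤ), p ≠ (0, (0, 0)) → Scal2.sm (sc a) u e i j p = 0 := by
    intro p hp
    have : cf (sc a) p.1 p.2.1 p.2.2 = 0 := by
      rw [sc, RingHom.comp_apply, cf_incl]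
      by_cases h : p.2.1 = 0 ∧ p.2.2 = 0
      · rw [if_pos h, HahnSeries.C_apply, HahnSeries.coeff_single_of_ne]
        intro h1
        exact hp (Prod.ext h1 (Prod.ext h.1 h.2))
      · rw [if_neg h]
    rw [Scal2.sm, this, zero_mul]
  rw [finsum_eq_single _ _ h0]
  simp only [Scal2.sm]
  rw [sc, RingHom.comp_apply, cf_incl, if_pos ⟨rfl, rfl⟩, HahnSeries.C_apply,
    HahnSeries.coeff_single_same, sub_zero, sub_zero, sub_zero]

theorem phi_add (τ : ℝ) (y c : HR F) (l D : ℕ) (κ κ' : ℕ × ℕ × ℕ → F) :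
    phi τ y c l D (fun x => κ x + κ' x) = phi τ y c l D κ + phi τ y c l D κ' := by
  unfold phi
  rw [← Finset.sum_add_distrib]
  refine Finset.sum_congr rfl fun n _ => ?_
  rw [← Finset.sum_add_distrib]
  refine Finset.sum_congr rfl fun k _ => ?_
  rw [map_add, add_mul]

theorem phi_smul (τ : ℝ) (y c : HR F) (l D : ℕ) (a : F) (κ : ℕ × ℕ × ℕ → F) :
    phi τ y c l D (fun x => a * κ x) = sc a * phi τ y c l D κ := by
  unfold phi
  rw [Finset.mul_sum]
  refine Finset.sum_congr rfl fun n _ => ?_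
  rw [Finset.mul_sum]
  refine Finset.sum_congr rfl fun k _ => ?_
  rw [map_mul, mul_assoc]

theorem phi_shift (τ : ℝ) (y c : HR F) (l n0 D : ℕ) (κ : ℕ × ℕ × ℕ → F)
    (h : ∀ n < n0, ∀ k ∈ Bs l, κ (n, k) = 0) :
    phi τ y c l (n0 + D) κ = tz F 1 0 0 ^ n0 * phi τ y c l D (fun x => κ (n0 + x.1, x.2)) := by
  unfold phi
  rw [Finset.sum_range_add, Finset.sum_eq_zero, zero_add, Finset.mul_sum]
  · refine Finset.sum_congr rfl fun n _ => ?_
    rw [Finset.mul_sum]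
    refine Finset.sum_congr rfl fun k _ => ?_
    rw [pow_add]
    ring
  · intro n hn
    refine Finset.sum_eq_zero fun k hk => ?_
    rw [h n (Finset.mem_range.1 hn) k hk, map_zero, zero_mul]

theorem single_pow_mul (j : ℤ) (r : F) (n : ℕ) :
    ((tz F 1 0 0).coeff 1) ^ n * (AddMonoidAlgebra.single (j, 0) r : Lau F) =
      AddMonoidAlgebra.single (j, 0) r := by
  rw [coeff_tz]
  have : (AddMonoidAlgebra.single ((0 : ℤ), (0 : ℤ)) (1 : F) : Lau F) = 1 := rfl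
  rw [this, one_pow, one_mul]

/-- the leading coefficient for a nonzero `κ` -/
theorem lead {τ : ℝ} (h0 : 0 < τ) (h1 : τ < 1) (hirr : Irrational τ) {c : HR F} {l : ℕ}
    (hcen : ∀ (D : ℕ) (κ : ℕ × ℕ × ℕ → F), Cen τ (phi τ (yc F τ) c l D κ))
    (hnc : ∀ {D : ℕ} {κ : ℕ × ℕ × ℕ → F}, 0 < D → (∃ k ∈ Bs l, κ (0, k) ≠ 0) →
      ∃ α β : ℕ, α + β ≤ 2 * l ∧ cf (phi τ (yc F τ) c l D κ) (τ * α) α 0 ≠ 0 ∧
        cf (phi τ (yc F τ) c l D κ) ((1 - τ) * β) (-β) 0 ≠ 0)
    {D : ℕ} {κ : ℕ × ℕ × ℕ → F} (h : ∃ n, n < D ∧ ∃ k ∈ Bs l, κ (n, k) ≠ 0) :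
    ∃ (m : ℕ) (j : ℤ) (r : F), r ≠ 0 ∧ m < D + l + 1 ∧ -(2 * (l : ℝ) * τ) ≤ j ∧
      (j : ℝ) ≤ 2 * (l : ℝ) * (1 - τ) ∧
      Low (phi τ (yc F τ) c l D κ) (m + max (τ * j) (-(1 - τ) * j)) ∧
      (phi τ (yc F τ) c l D κ).coeff (m + max (τ * j) (-(1 - τ) * j)) =
        AddMonoidAlgebra.single (j, 0) r := by
  classical
  set n0 := Nat.find h with hn0
  obtain ⟨hn0D, hk0⟩ := Nat.find_spec h
  have hmin : ∀ n < n0, ∀ k ∈ Bs l, κ (n, k) = 0 := by
    intro n hn k hk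
    by_contra hne
    exact Nat.find_min h hn ⟨hn.trans hn0D, k, hk, hne⟩
  obtain ⟨D', hD'⟩ : ∃ D', D = n0 + D' := ⟨D - n0, by omega⟩
  have hD'0 : 0 < D' := by omega
  set κ' : ℕ × ℕ × ℕ → F := fun x => κ (n0 + x.1, x.2) with hκ'
  have hphi : phi τ (yc F τ) c l D κ = tz F 1 0 0 ^ n0 * phi τ (yc F τ) c l D' κ' := by
    rw [hD']
    exact phi_shift τ (yc F τ) c l n0 D' κ hmin
  set u := phi τ (yc F τ) c l D' κ' with hu
  have hC : Cen τ u := hcen D' κ'
  obtain ⟨α, β, hαβ, hα, hβ⟩ := hnc (D := D') (κ := κ') hD'0 hk0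
  rw [← hu] at hα hβ
  have hcα : u.coeff (τ * α) ≠ 0 := by
    intro hz
    apply hα
    unfold cf
    rw [hz]
    simp
  have hcβ : u.coeff ((1 - τ) * β) ≠ 0 := by
    intro hz
    apply hβ
    unfold cf
    rw [hz]
    simp
  have hu0 : u ≠ 0 := by
    rintro hz
    rw [hz] at hcα
    exact hcα rfl
  set e := u.order with he
  have heα : e ≤ τ * α := HahnSeries.order_le_of_coeff_ne_zero hcα
  have heβ : e ≤ (1 - τ) * β := HahnSeries.order_le_of_coeff_ne_zero hcβ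
  have hce : u.coeff e ≠ 0 := (HahnSeries.coeff_order_eq_zero.not).2 hu0
  have hlow : Low u e := fun a ha => HahnSeries.coeff_eq_zero_of_lt_order ha
  -- the monomial of the leading coefficient
  obtain ⟨i, j, hij⟩ : ∃ i j : ℤ, cf u e i j ≠ 0 := by
    by_contra hno
    push Not at hno
    apply hce
    ext ⟨i, j⟩
    exact hno i j
  obtain ⟨hj, p, q, hi, hepq⟩ := hC e i j hij
  subst hj
  have huniq : u.coeff e = AddMonoidAlgebra.single (i, 0) (cf u e i 0) := by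
    ext ⟨i', j'⟩
    rw [AddMonoidAlgebra.coeff_single, Finsupp.single_apply]
    by_cases hh : (i, (0 : ℤ)) = (i', j')
    · rw [if_pos hh, ← hh]
      rfl
    · rw [if_neg hh]
      by_contra hne
      obtain ⟨hj', p', q', hi', hepq'⟩ := hC e i' j' hne
      apply hh
      have h2 : τ * (((p : ℤ) - q - (p' - q') : ℤ) : ℝ) = (((q' : ℤ) - q : ℤ) : ℝ) := by
        push_cast
        linarith
      obtain ⟨h3, -⟩ := irr_eq hirr h2
      exact Prod.ext (by simp only; omega) hj'.symm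
  -- inequalities
  have hp0 : (0 : ℝ) ≤ p := Nat.cast_nonneg p
  have hq0 : (0 : ℝ) ≤ q := Nat.cast_nonneg q
  have hiR : (i : ℝ) = p - q := by rw [hi]; push_cast; ring
  have hαβR : (α : ℝ) + β ≤ 2 * l := by exact_mod_cast hαβ
  have hl0 : (0 : ℝ) ≤ l := Nat.cast_nonneg l
  have he2 : e ≤ 2 * l * (τ * (1 - τ)) := by
    have h3 : (1 - τ) * e ≤ (1 - τ) * (τ * α) := mul_le_mul_of_nonneg_left heα (by linarith)
    have h4 : τ * e ≤ τ * ((1 - τ) * β) := mul_le_mul_of_nonneg_left heβ h0.le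
    have h5 : τ * (1 - τ) * ((α : ℝ) + β) ≤ τ * (1 - τ) * (2 * l) :=
      mul_le_mul_of_nonneg_left hαβR (mul_nonneg h0.le (by linarith))
    nlinarith
  have hmax : e = (min p q : ℕ) + max (τ * i) (-(1 - τ) * i) := by
    rcases le_total p q with hpq | hpq
    · have hpqR : (p : ℝ) ≤ q := by exact_mod_cast hpq
      rw [min_eq_left hpq, max_eq_right (by rw [hiR]; nlinarith), hiR, hepq]
      ring
    · have hpqR : (q : ℝ) ≤ p := by exact_mod_cast hpq
      rw [min_eq_right hpq, max_eq_left (by rw [hiR]; nlinarith), hiR, hepq]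
      ring
  have hmax0 : 0 ≤ max (τ * (i : ℝ)) (-(1 - τ) * i) := by
    rcases le_total 0 (i : ℝ) with hi0 | hi0
    · exact le_max_of_le_left (mul_nonneg h0.le hi0)
    · exact le_max_of_le_right (by nlinarith)
  have hmin0 : (0 : ℝ) ≤ ((min p q : ℕ) : ℝ) := Nat.cast_nonneg _
  have he3 : τ * i ≤ e := by
    rw [hmax]
    linarith [le_max_left (τ * (i : ℝ)) (-(1 - τ) * i)]
  have he4 : -(1 - τ) * i ≤ e := by
    rw [hmax]
    linarith [le_max_right (τ * (i : ℝ)) (-(1 - τ) * i)]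
  have hexp : ((n0 + min p q : ℕ) : ℝ) + max (τ * i) (-(1 - τ) * i) = n0 * 1 + e := by
    rw [hmax]
    push_cast
    ring
  refine ⟨n0 + min p q, i, cf u e i 0, hij, ?_, ?_, ?_, ?_, ?_⟩
  · -- the bound for the exponent
    have h5 : ((min p q : ℕ) : ℝ) ≤ l := by
      have h6 : ((min p q : ℕ) : ℝ) ≤ e := by rw [hmax]; linarith
      have h7 : τ * (1 - τ) ≤ 1 / 4 := by nlinarith [sq_nonneg (τ - 1 / 2)]
      have h8 : 2 * (l : ℝ) * (τ * (1 - τ)) ≤ 2 * l * (1 / 4) :=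
        mul_le_mul_of_nonneg_left h7 (by positivity)
      linarith
    have h6 : min p q ≤ l := by exact_mod_cast h5
    omega
  · have h5 : -(1 - τ) * (i : ℝ) ≤ 2 * l * (τ * (1 - τ)) := he4.trans he2
    have h6 : 0 < 1 - τ := by linarith
    by_contra hcon
    push Not at hcon
    have : (1 - τ) * (i : ℝ) < (1 - τ) * -(2 * l * τ) := mul_lt_mul_of_pos_left hcon h6
    nlinarith
  · have h5 : τ * (i : ℝ) ≤ 2 * l * (τ * (1 - τ)) := he3.trans he2
    by_contra hcon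
    push Not at hcon
    have : τ * (2 * (l : ℝ) * (1 - τ)) < τ * i := mul_lt_mul_of_pos_left hcon h0
    nlinarith
  · rw [hphi, hexp]
    exact ((low_tz (F := F) 1 0 0).pow n0).mul hlow
  · rw [hphi, hexp, ((low_tz (F := F) 1 0 0).pow n0).coeff_mul hlow, Low.coeff_pow (low_tz 1 0 0),
      huniq]
    exact single_pow_mul i _ n0

theorem card_Bs {l : ℕ} (hl : 1 ≤ l) : (Bs l).card = 2 * l := by
  unfold Bs
  rw [Finset.card_union_of_disjoint, Finset.card_image_of_injective, Finset.card_image_of_injective,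
    Finset.card_range, Finset.card_range]
  · omega
  · intro a b hab
    exact (Prod.ext_iff.1 hab).1
  · intro a b hab
    exact (Prod.ext_iff.1 hab).1
  · rw [Finset.disjoint_left]
    intro x hx hx'
    obtain ⟨a, -, rfl⟩ := Finset.mem_image.1 hx
    obtain ⟨b, -, hb⟩ := Finset.mem_image.1 hx'
    have := (Prod.ext_iff.1 hb).2
    simp at this

/-- the function extended by zero -/
noncomputable def hat {D l : ℕ} (κ : ↥(range D ×ˢ Bs l) → F) (x : ℕ × ℕ × ℕ) : F :=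
  open Classical in if h : x ∈ range D ×ˢ Bs l then κ ⟨x, h⟩ else 0

/-- the linear map of the coefficients -/
noncomputable def Φ (τ : ℝ) (c : HR F) (l D : ℕ) (J : Finset (ℤ × ℕ)) :
    (↥(range D ×ˢ Bs l) → F) →ₗ[F] (↥J → F) where
  toFun κ y := cf (phi τ (yc F τ) c l D (hat κ))
    (y.1.2 + max (τ * y.1.1) (-(1 - τ) * y.1.1)) y.1.1 0
  map_add' κ κ' := by
    funext y
    have : hat (κ + κ') = fun x => hat κ x + hat κ' x := by
      funext x
      unfold hat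
      by_cases h : x ∈ range D ×ˢ Bs l
      · simp only [dif_pos h, Pi.add_apply]
      · simp only [dif_neg h, add_zero]
    rw [this, phi_add, Scal2.cf_add]
    rfl
  map_smul' a κ := by
    funext y
    have : hat (a • κ) = fun x => a * hat κ x := by
      funext x
      unfold hat
      by_cases h : x ∈ range D ×ˢ Bs l
      · simp only [dif_pos h, Pi.smul_apply, smul_eq_mul]
      · simp only [dif_neg h, mul_zero]
    rw [this, phi_smul, cf_sc_mul]
    rfl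

/-- `exists_lead` from the facts of N2 -/
theorem main {τ : ℝ} (h0 : 0 < τ) (h1 : τ < 1) (hirr : Irrational τ) {c : HR F} {l : ℕ}
    (hcen : ∀ (D : ℕ) (κ : ℕ × ℕ × ℕ → F), Cen τ (phi τ (yc F τ) c l D κ))
    (hnc : ∀ {D : ℕ} {κ : ℕ × ℕ × ℕ → F}, 0 < D → (∃ k ∈ Bs l, κ (0, k) ≠ 0) →
      ∃ α β : ℕ, α + β ≤ 2 * l ∧ cf (phi τ (yc F τ) c l D κ) (τ * α) α 0 ≠ 0 ∧
        cf (phi τ (yc F τ) c l D κ) ((1 - τ) * β) (-β) 0 ≠ 0)
    (hl : 1 ≤ l) {i : ℤ}
    (hi1 : -(2 * (l : ℝ) * τ) ≤ i) (hi2 : (i : ℝ) ≤ 2 * (l : ℝ) * (1 - τ)) :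
    ∃ (D : ℕ) (κ : ℕ × ℕ × ℕ → F) (e : ℝ) (r : F), r ≠ 0 ∧
      Low (phi τ (yc F τ) c l D κ) e ∧
      (phi τ (yc F τ) c l D κ).coeff e = AddMonoidAlgebra.single (i, 0) r := by
  classical
  by_contra hcon
  set x : ℝ := -(2 * (l : ℝ) * τ) with hx
  have hJ : ∀ j : ℤ, x ≤ j → (j : ℝ) ≤ 2 * (l : ℝ) * (1 - τ) →
      j ∈ Finset.Icc (⌊x⌋ + 1) (2 * (l : ℤ) + ⌊x⌋) := by
    intro j hj1 hj2
    rw [Finset.mem_Icc]
    constructor
    · have h2 : ⌊x⌋ ≤ j := by
        have := (Int.floor_le x).trans hj1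
        exact_mod_cast this
      have h3 : ⌊x⌋ ≠ j := by
        intro h3
        have h4 : x = j := le_antisymm hj1 (by rw [← h3]; exact Int.floor_le x)
        have h5 : τ * ((-(2 * (l : ℤ)) : ℤ) : ℝ) = (j : ℝ) := by
          rw [← h4, hx]
          push_cast
          ring
        have := (irr_eq hirr h5).1
        omega
      omega
    · have h2 : ((j - 2 * (l : ℤ) : ℤ) : ℝ) ≤ x := by
        push_cast
        rw [hx]
        linarith
      have := Int.le_floor.2 h2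
      omega
  set J : Finset ℤ := (Finset.Icc (⌊x⌋ + 1) (2 * (l : ℤ) + ⌊x⌋)).erase i with hJd
  have hJc : J.card = 2 * l - 1 := by
    rw [hJd, Finset.card_erase_of_mem (hJ i hi1 hi2), Int.card_Icc]
    omega
  set D : ℕ := 2 * l * (l + 1) with hD
  set P : Finset (ℤ × ℕ) := J ×ˢ range (D + l + 1) with hP
  have hdim : Module.finrank F (↥P → F) < Module.finrank F (↥(range D ×ˢ Bs l) → F) := by
    rw [Module.finrank_fintype_fun_eq_card, Module.finrank_fintype_fun_eq_card,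
      Fintype.card_coe, Fintype.card_coe, hP, Finset.card_product, Finset.card_product,
      Finset.card_range, Finset.card_range, card_Bs hl, hJc]
    obtain ⟨k, rfl⟩ : ∃ k, l = k + 1 := ⟨l - 1, by omega⟩
    rw [hD, show 2 * (k + 1) - 1 = 2 * k + 1 by omega]
    nlinarith
  have hker := LinearMap.ker_ne_bot_of_finrank_lt (f := Φ τ c l D P) hdim
  obtain ⟨κ, hκ, hκ0⟩ := Submodule.exists_mem_ne_zero_of_ne_bot hker
  rw [LinearMap.mem_ker] at hκ
  have hex : ∃ n, n < D ∧ ∃ k ∈ Bs l, hat κ (n, k) ≠ 0 := by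
    by_contra hno
    push Not at hno
    apply hκ0
    funext y
    obtain ⟨⟨n, k⟩, hy⟩ := y
    have hy' := Finset.mem_product.1 hy
    have := hno n (Finset.mem_range.1 hy'.1) k hy'.2
    unfold hat at this
    rw [dif_pos hy] at this
    exact this
  obtain ⟨m, j, r, hr, hm, hj1, hj2, hlow, hco⟩ := lead h0 h1 hirr hcen hnc hex
  have hji : j ≠ i := by
    rintro rfl
    exact hcon ⟨D, hat κ, _, r, hr, hlow, hco⟩
  have hmem : (j, m) ∈ P := by
    rw [hP, Finset.mem_product, hJd, Finset.mem_erase]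
    exact ⟨⟨hji, hJ j hj1 hj2⟩, Finset.mem_range.2 hm⟩
  have h2 := congrFun hκ ⟨(j, m), hmem⟩
  apply hr
  have h3 : cf (phi τ (yc F τ) c l D (hat κ)) (m + max (τ * j) (-(1 - τ) * j)) j 0 = 0 := h2
  unfold cf at h3
  rw [hco, AddMonoidAlgebra.coeff_single, Finsupp.single_eq_same] at h3
  exact h3

end Exl

theorem exists_lead [CharZero F] {τ : ℝ} (h0 : 0 < τ) (h1 : τ < 1) (hirr : Irrational τ) {c : HR F}
    (hc : Rt τ (yc F τ) c) (hcen : Cen τ c) {l : ℕ} (hl : 1 ≤ l) {i : ℤ}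
    (hi1 : -(2 * (l : ℝ) * τ) ≤ i) (hi2 : (i : ℝ) ≤ 2 * (l : ℝ) * (1 - τ)) :
    ∃ (D : ℕ) (κ : ℕ × ℕ × ℕ → F) (e : ℝ) (r : F), r ≠ 0 ∧
      Low (phi τ (yc F τ) c l D κ) e ∧
      (phi τ (yc F τ) c l D κ).coeff e = AddMonoidAlgebra.single (i, 0) r :=
  Exl.main h0 h1 hirr (fun D κ => Cen.phi hcen l D κ)
    (fun hD hκ => nc h0 h1 hc hcen hD hκ) hl hi1 hi2

end Pool.Agent.TH587.NG
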