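import Mathlib
import Pool.Agent.TH587.NG.Defs

/-! The root of `c ^ 3 - c = (x + y) / 2` in Hahn series (piece N1, job 4112). -/

set_option autoImplicit false

namespace Pool.Agent.TH587.NG

open Finset Pool.Agent.TH603.EL

variable {F : Type} [Field F]

namespace Root

open PowerSeries in
/-- contractions of the ring of formal power series have fixed points -/
theorem exists_fixed (T : PowerSeries F → PowerSeries F)
    (hT : ∀ a b, X * (a - b) ∣ T a - T b) : ∃ u, T u = u := by
  set s : ℕ → PowerSeries F := fun k => T^[k] 0 with hs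
  have hsucc : ∀ k, s (k + 1) = T (s k) := fun k => Function.iterate_succ_apply' T k 0
  have h1 : ∀ k, (X : PowerSeries F) ^ k ∣ s (k + 1) - s k := by
    intro k
    induction k with
    | zero => simp
    | succ k ih =>
      rw [hsucc (k + 1), hsucc k]
      refine dvd_trans ?_ (hT _ _)
      rw [pow_succ']
      refine mul_dvd_mul_left _ ?_
      rw [← hsucc k]
      exact ih
  have h2 : ∀ k m, k ≤ m → (X : PowerSeries F) ^ k ∣ s m - s k := by
    intro k m hkm
    induction m, hkm using Nat.le_induction with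
    | base => simp
    | succ m hkm ih =>
      have e : s (m + 1) - s k = (s (m + 1) - s m) + (s m - s k) := by ring
      rw [e]
      exact dvd_add (dvd_trans (pow_dvd_pow _ hkm) (h1 m)) ih
  set u : PowerSeries F := PowerSeries.mk (fun n => coeff n (s (n + 1))) with hu
  have h3 : ∀ k, (X : PowerSeries F) ^ k ∣ u - s k := by
    intro k
    rw [X_pow_dvd_iff]
    intro m hm
    rw [map_sub, hu, coeff_mk]
    have h4 := (X_pow_dvd_iff.1 (h2 (m + 1) k (by omega))) m (by omega)
    rw [map_sub] at h4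
    rw [sub_eq_zero] at h4 ⊢
    exact h4.symm
  refine ⟨u, ?_⟩
  ext k
  have h5 : (X : PowerSeries F) ^ (k + 1) ∣ T u - u := by
    have e : T u - u = (T u - T (s k)) - (u - s (k + 1)) := by rw [hsucc]; ring
    rw [e]
    refine dvd_sub (dvd_trans ?_ (hT _ _)) (h3 _)
    rw [pow_succ']
    exact mul_dvd_mul_left _ (h3 k)
  have h6 := (X_pow_dvd_iff.1 h5) k (by omega)
  rw [map_sub, sub_eq_zero] at h6
  exact h6

open PowerSeries in
/-- `f = 1 + X u` satisfies `f ^ 3 - f = X` -/
theorem exists_ps [CharZero F] :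
    ∃ u : PowerSeries F, (1 + X * u) ^ 3 - (1 + X * u) = X := by
  have h2 : (2 : F) ≠ 0 := two_ne_zero
  have hC : (C (1 / 2 : F)) * (2 : PowerSeries F) = 1 := by
    have : (2 : PowerSeries F) = C (2 : F) := (map_ofNat C 2).symm
    rw [this, ← map_mul, one_div, inv_mul_cancel₀ h2, map_one]
  obtain ⟨u, hu⟩ := exists_fixed
    (fun u : PowerSeries F => C (1 / 2 : F) * (1 - 3 * X * u ^ 2 - X ^ 2 * u ^ 3)) (by
      intro a b
      refine ⟨-(C (1 / 2 : F) * (3 * (a + b) + X * (a ^ 2 + a * b + b ^ 2))), ?_⟩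
      ring)
  have hu' : C (1 / 2 : F) * (1 - 3 * X * u ^ 2 - X ^ 2 * u ^ 3) = u := hu
  refine ⟨u, ?_⟩
  have h1 : 2 * u + 3 * X * u ^ 2 + X ^ 2 * u ^ 3 = 1 := by
    have h3 : 2 * u = 1 - 3 * X * u ^ 2 - X ^ 2 * u ^ 3 := by
      calc 2 * u = 2 * (C (1 / 2 : F) * (1 - 3 * X * u ^ 2 - X ^ 2 * u ^ 3)) := by
            rw [hu']
        _ = (C (1 / 2 : F) * 2) * (1 - 3 * X * u ^ 2 - X ^ 2 * u ^ 3) := by ring
        _ = _ := by rw [hC, one_mul]
    rw [h3]; ring
  linear_combination X * h1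

theorem low_sc (r : F) : Low (sc r) 0 := by
  unfold sc
  exact Low.incl (low_single (0 : ℝ) r)

theorem cf_sc (r : F) (e : ℝ) (i j : ℤ) :
    cf (sc r) e i j ≠ 0 → e = 0 ∧ i = 0 ∧ j = 0 := by
  intro h
  unfold sc at h
  rw [RingHom.comp_apply, cf_incl] at h
  split_ifs at h with h1
  · refine ⟨?_, h1.1, h1.2⟩
    by_contra he
    apply h
    rw [HahnSeries.C_apply, HahnSeries.coeff_single_of_ne he]
  · exact absurd rfl h

theorem cen_add {τ : ℝ} {u v : HR F} (hu : Cen τ u) (hv : Cen τ v) : Cen τ (u + v) := by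
  intro e i j h
  rw [Scal2.cf_add] at h
  by_cases h1 : cf u e i j = 0
  · rw [h1, zero_add] at h
    exact hv e i j h
  · exact hu e i j h1

theorem cen_mul {τ : ℝ} {u v : HR F} (hu : Cen τ u) (hv : Cen τ v) : Cen τ (u * v) := by
  intro e i j h
  rw [Scal2.cf_mul] at h
  obtain ⟨q, hq⟩ : ∃ q, Scal2.sm u v e i j q ≠ 0 := by
    by_contra hcon
    push Not at hcon
    apply h
    exact finsum_eq_zero_of_forall_eq_zero hcon
  unfold Scal2.sm at hq
  obtain ⟨h1, p1, q1, h2, h3⟩ := hu _ _ _ (left_ne_zero_of_mul hq)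
  obtain ⟨h4, p2, q2, h5, h6⟩ := hv _ _ _ (right_ne_zero_of_mul hq)
  refine ⟨by omega, p1 + p2, q1 + q2, ?_, ?_⟩
  · push_cast
    omega
  · push_cast
    have : e = q.1 + (e - q.1) := by ring
    rw [this, h6, h3]
    ring

theorem cen_sc (τ : ℝ) (r : F) : Cen τ (sc r) := by
  intro e i j h
  obtain ⟨h1, h2, h3⟩ := cf_sc r e i j h
  exact ⟨h3, 0, 0, by simp [h2], by simp [h1]⟩

theorem cf_tz' (a : ℝ) (k l : ℤ) (e : ℝ) (i j : ℤ) (h : cf (tz F a k l) e i j ≠ 0) :
    e = a ∧ i = k ∧ j = l := by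
  classical
  unfold cf tz at h
  by_cases he : e = a
  · subst he
    rw [HahnSeries.coeff_single_same] at h
    by_cases h1 : ((k, l) : ℤ × ℤ) = (i, j)
    · rw [Prod.ext_iff] at h1
      exact ⟨rfl, h1.1.symm, h1.2.symm⟩
    · exfalso
      apply h
      simp [h1]
  · exfalso
    apply h
    rw [HahnSeries.coeff_single_of_ne he]
    simp

theorem cen_x (τ : ℝ) : Cen τ (tz F τ 1 0) := by
  intro e i j h
  obtain ⟨h1, h2, h3⟩ := cf_tz' _ _ _ e i j h
  exact ⟨h3, 1, 0, by simp [h2], by simp [h1]⟩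

theorem cen_y (τ : ℝ) : Cen τ (yc F τ) := by
  intro e i j h
  obtain ⟨h1, h2, h3⟩ := cf_tz' _ _ _ e i j h
  exact ⟨h3, 0, 1, by simp [h2], by simp [h1]⟩

theorem cen_one (τ : ℝ) : Cen τ (1 : HR F) := by
  have h : (1 : HR F) = sc (1 : F) := by simp
  rw [h]
  exact cen_sc τ 1

theorem cen_pow {τ : ℝ} {u : HR F} (hu : Cen τ u) (n : ℕ) : Cen τ (u ^ n) := by
  induction n with
  | zero => simpa using cen_one τ
  | succ n ih =>
    rw [pow_succ]
    exact cen_mul ih hu

theorem orderTop_pos {W : HR F} {μ : ℝ} (hμ : 0 < μ) (h : Low W μ) : 0 < W.orderTop := by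
  by_cases hW : W = 0
  · rw [hW, HahnSeries.orderTop_zero]
    exact WithTop.top_pos
  · refine HahnSeries.zero_lt_orderTop_of_order ?_
    by_contra hcon
    push Not at hcon
    exact (HahnSeries.coeff_order_eq_zero.not.2 hW) (h _ (lt_of_le_of_lt hcon hμ))

/-- the value of a power series with coefficients in `F` -/
noncomputable def val (W : HR F) : PowerSeries F →+* HR F where
  toFun f := PowerSeries.heval W (PowerSeries.map (algebraMap F (Lau F)) f)
  map_one' := by
    rw [map_one]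
    exact map_one (PowerSeries.heval W)
  map_mul' f g := by
    rw [map_mul]
    exact PowerSeries.heval_mul W
  map_zero' := by
    rw [map_zero]
    exact map_zero (PowerSeries.heval W)
  map_add' f g := by
    rw [map_add]
    exact map_add (PowerSeries.heval W) _ _

theorem coeff_val {W : HR F} (hW : 0 < W.orderTop) (f : PowerSeries F) (a : ℝ) :
    (val W f).coeff a = ∑ᶠ n, algebraMap F (Lau F) (PowerSeries.coeff n f) * (W ^ n).coeff a := by
  change (PowerSeries.heval W (PowerSeries.map (algebraMap F (Lau F)) f)).coeff a = _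
  rw [PowerSeries.coeff_heval]
  refine finsum_congr fun n => ?_
  rw [HahnSeries.SummableFamily.coeff_apply,
    HahnSeries.SummableFamily.powerSeriesFamily_of_orderTop_pos hW, PowerSeries.coeff_map,
    HahnSeries.coeff_smul, smul_eq_mul]

theorem low_val {W : HR F} {μ : ℝ} (hμ : 0 < μ) (h : Low W μ) (f : PowerSeries F) :
    Low (val W f) 0 := by
  intro a ha
  rw [coeff_val (orderTop_pos hμ h)]
  refine finsum_eq_zero_of_forall_eq_zero fun n => ?_
  have h1 : (W ^ n).coeff a = 0 := h.pow n a (lt_of_lt_of_le ha (by positivity))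
  rw [h1, mul_zero]

theorem cen_val {τ : ℝ} {W : HR F} (hW : 0 < W.orderTop) (h : Cen τ W) (f : PowerSeries F) :
    Cen τ (val W f) := by
  intro e i j hne
  by_contra hcon
  apply hne
  unfold cf
  rw [coeff_val hW]
  refine finsum_induction (fun u : Lau F => u.coeff (i, j) = 0) (by simp) (fun x y hx hy => ?_)
    fun n => ?_
  · simp only [AddMonoidAlgebra.coeff_add, Finsupp.add_apply, hx, hy, add_zero]
  · have h1 : ((W ^ n).coeff e).coeff (i, j) = 0 := by
      by_contra h2
      exact hcon (cen_pow h n e i j h2)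
    rw [← Algebra.smul_def]
    simp [h1]

theorem val_X {W : HR F} (hW : 0 < W.orderTop) : val W PowerSeries.X = W := by
  change PowerSeries.heval W (PowerSeries.map (algebraMap F (Lau F)) PowerSeries.X) = _
  rw [PowerSeries.map_X, PowerSeries.heval_X W hW]

theorem root_aux [CharZero F] {τ : ℝ} (h0 : 0 < τ) (h1 : τ < 1) {y : HR F}
    (hy : Low y (1 - τ)) : ∃ (f : PowerSeries F),
      0 < (sc (1 / 2 : F) * (tz F τ 1 0 + y)).orderTop ∧
      Rt τ y (val (sc (1 / 2 : F) * (tz F τ 1 0 + y)) f) := by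
  have hμ : 0 < min τ (1 - τ) := lt_min h0 (by linarith)
  have hW : Low (sc (1 / 2 : F) * (tz F τ 1 0 + y)) (min τ (1 - τ)) := by
    have h2 := (low_sc (1 / 2 : F)).mul
      (((low_tz (F := F) τ 1 0).mono (min_le_left τ (1 - τ))).add
        (hy.mono (min_le_right τ (1 - τ))))
    rwa [zero_add] at h2
  obtain ⟨u, hu⟩ := exists_ps (F := F)
  refine ⟨1 + PowerSeries.X * u, orderTop_pos hμ hW, ?_, ?_⟩
  · rw [← map_pow, ← map_sub, hu, val_X (orderTop_pos hμ hW)]
  · rw [map_add, map_one, map_mul, val_X (orderTop_pos hμ hW), add_sub_cancel_left]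
    have h3 := hW.mul (low_val hμ hW u)
    rwa [add_zero] at h3

end Root

open Root in
theorem exists_root [CharZero F] {τ : ℝ} (h0 : 0 < τ) (h1 : τ < 1) :
    (∃ c : HR F, Rt τ (yc F τ) c ∧ Cen τ c) ∧
      ∀ s : ℝ, 0 ≤ s → ∃ c : HR F, Rt τ (yt F τ s) c := by
  constructor
  · obtain ⟨f, hf1, hf2⟩ := root_aux h0 h1 (y := yc F τ) (low_tz _ _ _)
    exact ⟨_, hf2, cen_val hf1 (cen_mul (cen_sc _ _) (cen_add (cen_x τ) (cen_y τ))) f⟩
  · intro s hs
    have hy : Low (yt F τ s) (1 - τ) := by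
      have h2 := (low_tz (F := F) (1 - τ) (-1) 0).mul
        ((low_one (B := Lau F)).add ((low_tz (F := F) s 0 1).mono hs))
      rwa [add_zero] at h2
    obtain ⟨f, -, hf2⟩ := root_aux h0 h1 hy
    exact ⟨_, hf2⟩

end Pool.Agent.TH587.NG
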