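import Pool.Agent.TH587.NG.Defs

/-! Polynomials of weighted degree at most `D`. -/

namespace Pool.Agent.TH587.NG

open Finset Pool.Agent.TH603.EL

variable {F : Type} [Field F]

namespace Span

/-- the terms of weighted degree at most `D` -/
def T (A B : HR F) (M D : ℕ) : Set (HR F) :=
  {v | ∃ (r : HK F) (p q : ℕ), p + M * q ≤ D ∧ v = incl r * (A ^ p * B ^ q)}

theorem VS_eq (A B : HR F) (M D : ℕ) :
    VS A B M D = (AddSubmonoid.closure (T A B M D) : Set (HR F)) := by
  apply Set.Subset.antisymm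
  · rintro v ⟨f, hf, rfl⟩
    rw [SetLike.mem_coe]
    unfold Finsupp.sum
    apply sum_mem
    intro m hm
    obtain ⟨h1, h2, h3⟩ := hf m hm
    apply AddSubmonoid.subset_closure
    refine ⟨f m, m.1.toNat, m.2.toNat, ?_, rfl⟩
    have e1 : ((m.1.toNat : ℕ) : ℤ) = m.1 := Int.toNat_of_nonneg h1
    have e2 : ((m.2.toNat : ℕ) : ℤ) = m.2 := Int.toNat_of_nonneg h2
    have : ((m.1.toNat + M * m.2.toNat : ℕ) : ℤ) ≤ (D : ℤ) := by
      push_cast
      rw [e1, e2]
      exact h3
    exact_mod_cast this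
  · intro v hv
    rw [SetLike.mem_coe] at hv
    induction hv using AddSubmonoid.closure_induction with
    | mem x hx =>
      obtain ⟨r, p, q, h, rfl⟩ := hx
      refine ⟨Finsupp.single ((p : ℤ), (q : ℤ)) r, ?_, ?_⟩
      · intro m hm
        have h1 := Finsupp.support_single_subset hm
        rw [mem_singleton] at h1
        subst h1
        refine ⟨Int.natCast_nonneg p, Int.natCast_nonneg q, ?_⟩
        show (p : ℤ) + M * (q : ℤ) ≤ D
        exact_mod_cast h
      · rw [Finsupp.sum_single_index]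
        · simp
        · simp
    | zero => exact ⟨0, by simp, by simp⟩
    | add x y _ _ hx hy =>
      obtain ⟨f, hf, rfl⟩ := hx
      obtain ⟨g, hg, rfl⟩ := hy
      refine ⟨f + g, ?_, ?_⟩
      · intro m hm
        rcases mem_union.1 (Finsupp.support_add hm) with h | h
        · exact hf m h
        · exact hg m h
      · rw [Finsupp.sum_add_index']
        · intro m
          simp
        · intro m r r'
          rw [map_add, add_mul]

end Span

open Pool.Agent.TH587.NG.Span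

theorem VS.mono {A B : HR F} {M D D' : ℕ} (h : D ≤ D') {v : HR F} (hv : v ∈ VS A B M D) :
    v ∈ VS A B M D' := by
  rw [VS_eq, SetLike.mem_coe] at hv ⊢
  refine AddSubmonoid.closure_mono ?_ hv
  rintro x ⟨r, p, q, h1, rfl⟩
  exact ⟨r, p, q, h1.trans h, rfl⟩

theorem VS.add {A B : HR F} {M D : ℕ} {u v : HR F} (hu : u ∈ VS A B M D) (hv : v ∈ VS A B M D) :
    u + v ∈ VS A B M D := by
  rw [VS_eq, SetLike.mem_coe] at hu hv ⊢
  exact add_mem hu hv

theorem VS.mul {A B : HR F} {M D D' : ℕ} {u v : HR F} (hu : u ∈ VS A B M D)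
    (hv : v ∈ VS A B M D') : u * v ∈ VS A B M (D + D') := by
  rw [VS_eq, SetLike.mem_coe] at hu hv ⊢
  induction hu using AddSubmonoid.closure_induction with
  | mem x hx =>
    obtain ⟨r, p, q, h, rfl⟩ := hx
    induction hv using AddSubmonoid.closure_induction with
    | mem y hy =>
      obtain ⟨r', p', q', h', rfl⟩ := hy
      apply AddSubmonoid.subset_closure
      refine ⟨r * r', p + p', q + q', ?_, ?_⟩
      · have : M * (q + q') = M * q + M * q' := by ring
        omega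
      · rw [map_mul]
        ring
    | zero => rw [mul_zero]; exact zero_mem _
    | add y y' _ _ hy hy' => rw [mul_add]; exact add_mem hy hy'
  | zero => rw [zero_mul]; exact zero_mem _
  | add x x' _ _ hx hx' => rw [add_mul]; exact add_mem hx hx'

theorem VS.incl (A B : HR F) (M D : ℕ) (r : HK F) : incl r ∈ VS A B M D := by
  rw [VS_eq, SetLike.mem_coe]
  apply AddSubmonoid.subset_closure
  exact ⟨r, 0, 0, by simp, by simp⟩

theorem VS.fst (A B : HR F) (M : ℕ) : A ∈ VS A B M 1 := by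
  rw [VS_eq, SetLike.mem_coe]
  apply AddSubmonoid.subset_closure
  exact ⟨1, 1, 0, by simp, by simp⟩

theorem VS.snd (A B : HR F) (M : ℕ) : B ∈ VS A B M M := by
  rw [VS_eq, SetLike.mem_coe]
  apply AddSubmonoid.subset_closure
  exact ⟨1, 0, 1, by simp, by simp⟩

namespace Span

theorem VS.neg {A B : HR F} {M D : ℕ} {v : HR F} (hv : v ∈ VS A B M D) :
    -v ∈ VS A B M D := by
  have h := NG.VS.mul (NG.VS.incl A B M 0 (-1)) hv
  have e : incl (-1 : HK F) * v = -v := by
    rw [map_neg, map_one]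
    ring
  rw [e, zero_add] at h
  exact h

theorem VS.sub {A B : HR F} {M D : ℕ} {u v : HR F} (hu : u ∈ VS A B M D)
    (hv : v ∈ VS A B M D) : u - v ∈ VS A B M D := by
  rw [sub_eq_add_neg]
  exact NG.VS.add hu (VS.neg hv)

theorem VS.pow {A B : HR F} {M D : ℕ} {v : HR F} (hv : v ∈ VS A B M D) (n : ℕ) :
    v ^ n ∈ VS A B M (n * D) := by
  induction n with
  | zero =>
    rw [pow_zero, zero_mul, ← map_one (incl (F := F))]
    exact NG.VS.incl A B M 0 1
  | succ n ih =>
    rw [pow_succ, add_mul, one_mul]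
    exact NG.VS.mul ih hv

theorem VS.sum {I : Type} {A B : HR F} {M D : ℕ} (s : Finset I) (f : I → HR F)
    (h : ∀ i ∈ s, f i ∈ VS A B M D) : ∑ i ∈ s, f i ∈ VS A B M D := by
  rw [VS_eq, SetLike.mem_coe]
  apply sum_mem
  intro i hi
  have := h i hi
  rw [VS_eq, SetLike.mem_coe] at this
  exact this

theorem tz_eq : tz F 1 0 0 = Pool.Agent.TH603.EL.incl (HahnSeries.single (1 : ℝ) (1 : F)) := by
  apply cf_ext
  intro a i j
  rw [cf_incl]
  unfold cf tz
  by_cases ha : a = 1
  · subst ha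
    rw [HahnSeries.coeff_single_same, HahnSeries.coeff_single_same]
    by_cases h : i = 0 ∧ j = 0
    · obtain ⟨rfl, rfl⟩ := h
      simp
    · rw [if_neg h]
      have h' : ¬ ((0 : ℤ), (0 : ℤ)) = (i, j) := by
        intro h1
        have h2 := Prod.ext_iff.1 h1
        exact h ⟨h2.1.symm, h2.2.symm⟩
      simp [Finsupp.single_apply, h']
  · rw [HahnSeries.coeff_single_of_ne ha, HahnSeries.coeff_single_of_ne ha]
    simp

end Span

theorem VS.phi {τ : ℝ} {y c : HR F} {M m j : ℕ} (hM : 2 ≤ M) (D : ℕ) (κ : ℕ × ℕ × ℕ → F) :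
    phi τ y c (M * m) D κ * ((c ^ 2 - 1) ^ 3 + (c ^ 2 - 1) ^ 2 - bb τ y ^ 2 - tz F 1 0 0) ^ j ∈
      VS (c ^ 2) (bb τ y + 1) M (M * (m + 1 + 2 * j)) := by
  have h1 : (1 : HR F) ∈ VS (c ^ 2) (bb τ y + 1) M 0 := by
    rw [← map_one (Pool.Agent.TH603.EL.incl (F := F))]
    exact VS.incl _ _ _ _ _
  have ha : c ^ 2 - 1 ∈ VS (c ^ 2) (bb τ y + 1) M 1 :=
    Span.VS.sub (VS.fst _ _ _) (VS.mono (Nat.zero_le _) h1)
  have hb : bb τ y ∈ VS (c ^ 2) (bb τ y + 1) M M := by
    have h2 := Span.VS.sub (VS.snd (c ^ 2) (bb τ y + 1) M) (VS.mono (Nat.zero_le M) h1)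
    rw [add_sub_cancel_right] at h2
    exact h2
  have ht : tz F 1 0 0 ∈ VS (c ^ 2) (bb τ y + 1) M 0 := by
    rw [tz_eq]
    exact VS.incl _ _ _ _ _
  have hh : (c ^ 2 - 1) ^ 3 + (c ^ 2 - 1) ^ 2 - bb τ y ^ 2 - tz F 1 0 0 ∈
      VS (c ^ 2) (bb τ y + 1) M (2 * M) :=
    Span.VS.sub (Span.VS.sub (VS.add (VS.mono (by omega) (Span.VS.pow ha 3))
      (VS.mono (by omega) (Span.VS.pow ha 2))) (Span.VS.pow hb 2)) (VS.mono (Nat.zero_le _) ht)
  have hphi : NG.phi τ y c (M * m) D κ ∈ VS (c ^ 2) (bb τ y + 1) M (M * (m + 1)) := by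
    unfold NG.phi
    apply Span.VS.sum
    intro n _
    apply Span.VS.sum
    intro k hk
    have g1 : sc (κ (n, k)) ∈ VS (c ^ 2) (bb τ y + 1) M 0 := VS.incl _ _ _ _ _
    have g2 := Span.VS.pow ht n
    have g3 := VS.mul (Span.VS.pow ha k.1) (Span.VS.pow hb k.2)
    have g4 := VS.mul g1 (VS.mul g2 g3)
    refine VS.mono ?_ g4
    have e1 : M * (m + 1) = M * m + M := by ring
    unfold Bs at hk
    rw [mem_union, mem_image, mem_image] at hk
    rcases hk with ⟨x, hx, rfl⟩ | ⟨x, hx, rfl⟩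
    · rw [mem_range] at hx
      simp only
      omega
    · rw [mem_range] at hx
      simp only
      omega
  have hfin := VS.mul hphi (Span.VS.pow hh j)
  refine VS.mono (le_of_eq ?_) hfin
  ring

end Pool.Agent.TH587.NG
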