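import Pool.Agent.TH587.NG.Defs

/-! The tube around the nodal curve. -/

namespace Pool.Agent.TH587.NG

open Finset Pool.Agent.TH603.EL

variable {F : Type} [Field F]

theorem tz_mul (a b : ℝ) (i j k l : ℤ) :
    tz F a i j * tz F b k l = tz F (a + b) (i + k) (j + l) := by
  unfold tz
  rw [HahnSeries.single_mul_single, AddMonoidAlgebra.single_mul_single]
  simp

theorem low_sc (r : F) : Low (sc r : HR F) 0 := by
  unfold sc
  exact Low.incl (low_single 0 r)

theorem delta_pos {τ : ℝ} (h0 : 0 < τ) (h1 : τ < 1) : 0 < min τ (1 - τ) :=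
  lt_min h0 (by linarith)

theorem low_of_rt [CharZero F] {τ : ℝ} (h0 : 0 < τ) (h1 : τ < 1) {y c : HR F}
    (hc : Rt τ y c) : Low c 0 := by
  have h2 := low_one.add (hc.low.mono (delta_pos h0 h1).le)
  have e : (1 : HR F) + (c - 1) = c := by ring
  rwa [e] at h2

theorem low_div [CharZero F] {x w : HR F} {s δ : ℝ} (hδ : 0 < δ) (hw : Low w δ)
    (h : Low (x * (2 + w)) s) : Low x s := by
  by_cases hx : x = 0
  · rw [hx]; exact low_zero s
  · have h1 : x.coeff x.order ≠ 0 := mt HahnSeries.coeff_order_eq_zero.1 hx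
    have h2 : Low x x.order := fun a ha => HahnSeries.coeff_eq_zero_of_lt_order ha
    have h3 : s ≤ x.order := by
      by_contra hc
      push Not at hc
      have e2 : (2 : HR F) = HahnSeries.C (2 : Lau F) := (map_ofNat HahnSeries.C 2).symm
      have h4 : Low (2 + w) 0 := by
        refine Low.add ?_ (hw.mono hδ.le)
        rw [e2]
        exact low_single 0 _
      have h5 := h2.coeff_mul h4
      rw [add_zero, h _ hc, HahnSeries.coeff_add, hw 0 hδ, add_zero, e2] at h5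
      have h6 : (HahnSeries.C (2 : Lau F)).coeff (0 : ℝ) = (2 : Lau F) := by
        simp [HahnSeries.C]
      rw [h6] at h5
      apply h1
      have h7 : (2 : F) • x.coeff x.order = 0 := by
        rw [two_smul, ← mul_two]
        exact h5.symm
      exact (smul_eq_zero.1 h7).resolve_left two_ne_zero
    exact h2.mono h3

theorem low_bb {τ : ℝ} (h0 : 0 < τ) {y : HR F} (hy : Low y 0) : Low (bb τ y) 0 := by
  unfold bb
  have := (low_sc (F := F) (1 / 2)).mul (((low_tz (F := F) τ 1 0).mono h0.le).sub hy)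
  simpa using this

theorem low_yc {τ : ℝ} : Low (yc F τ) (1 - τ) := low_tz _ _ _

theorem low_yt {τ s : ℝ} (hs : 0 ≤ s) : Low (yt F τ s) (1 - τ) := by
  unfold yt
  have h2 : Low (1 + tz F s 0 1) 0 := low_one.add ((low_tz s 0 1).mono hs)
  have := (low_tz (F := F) (1 - τ) (-1) 0).mul h2
  simpa using this

theorem yt_sub_yc (τ s : ℝ) : yt F τ s - yc F τ = tz F (1 - τ + s) (-1) 1 := by
  unfold yt yc
  have e := tz_mul (F := F) (1 - τ) s (-1) 0 0 1
  simp only [add_zero, zero_add] at e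
  rw [mul_add, mul_one, e]
  ring

theorem low_pow_sub {A A' : HR F} {s : ℝ} (hA : Low A 0) (hA' : Low A' 0) (h : Low (A' - A) s)
    (n : ℕ) : Low (A' ^ n - A ^ n) s := by
  induction n with
  | zero => simpa using low_zero (B := Lau F) s
  | succ n ih =>
    have e : A' ^ (n + 1) - A ^ (n + 1) = A' ^ n * (A' - A) + (A' ^ n - A ^ n) * A := by ring
    rw [e]
    have h1 := (hA'.pow_zero' n).mul h
    have h2 := ih.mul hA
    rw [zero_add] at h1
    rw [add_zero] at h2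
    exact h1.add h2

theorem tube_phi [CharZero F] {τ : ℝ} (h0 : 0 < τ) (h1 : τ < 1) {s : ℝ} (hs : 0 ≤ s) {c c' : HR F}
    (hc : Rt τ (yc F τ) c) (hc' : Rt τ (yt F τ s) c') (l D : ℕ) (κ : ℕ × ℕ × ℕ → F) :
    Low (phi τ (yt F τ s) c' l D κ - phi τ (yc F τ) c l D κ) s := by
  have hδ := delta_pos h0 h1
  have hc0 := low_of_rt h0 h1 hc
  have hc0' := low_of_rt h0 h1 hc'
  -- the difference of the roots
  have hcc : Low (c' - c) s := by
    have hw : Low (3 * (c' - 1) + 3 * (c - 1) + (c' - 1) ^ 2 + (c' - 1) * (c - 1) + (c - 1) ^ 2)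
        (min τ (1 - τ)) := by
      have e3 : (3 : HR F) = sc (3 : F) := (map_ofNat sc 3).symm
      have l3 : Low (3 : HR F) 0 := by rw [e3]; exact low_sc _
      have a1 : Low (3 * (c' - 1)) (min τ (1 - τ)) := by
        have := l3.mul hc'.low; rwa [zero_add] at this
      have a2 : Low (3 * (c - 1)) (min τ (1 - τ)) := by
        have := l3.mul hc.low; rwa [zero_add] at this
      have a3 : Low ((c' - 1) ^ 2) (min τ (1 - τ)) := by
        rw [sq]; exact (hc'.low.mul hc'.low).mono (by linarith)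
      have a4 : Low ((c' - 1) * (c - 1)) (min τ (1 - τ)) :=
        (hc'.low.mul hc.low).mono (by linarith)
      have a5 : Low ((c - 1) ^ 2) (min τ (1 - τ)) := by
        rw [sq]; exact (hc.low.mul hc.low).mono (by linarith)
      exact (((a1.add a2).add a3).add a4).add a5
    refine low_div hδ hw ?_
    have e : (c' - c) * (2 + (3 * (c' - 1) + 3 * (c - 1) + (c' - 1) ^ 2 + (c' - 1) * (c - 1) +
        (c - 1) ^ 2)) = (c' ^ 3 - c') - (c ^ 3 - c) := by ring
    rw [e, hc'.eq, hc.eq, ← mul_sub]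
    have e2 : tz F τ 1 0 + yt F τ s - (tz F τ 1 0 + yc F τ) = tz F (1 - τ + s) (-1) 1 := by
      rw [← yt_sub_yc]; ring
    rw [e2]
    have := (low_sc (F := F) (1 / 2)).mul (low_tz (F := F) (1 - τ + s) (-1) 1)
    exact this.mono (by linarith)
  have hbb : Low (bb τ (yt F τ s) - bb τ (yc F τ)) s := by
    unfold bb
    have e2 : sc (1 / 2 : F) * (tz F τ 1 0 - yt F τ s) - sc (1 / 2 : F) * (tz F τ 1 0 - yc F τ) =
        sc (1 / 2 : F) * (-tz F (1 - τ + s) (-1) 1) := by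
      rw [← yt_sub_yc]; ring
    rw [e2]
    have := (low_sc (F := F) (1 / 2)).mul (low_tz (F := F) (1 - τ + s) (-1) 1).neg
    exact this.mono (by linarith)
  have hB : Low (bb τ (yc F τ)) 0 := low_bb h0 (low_yc.mono (by linarith))
  have hB' : Low (bb τ (yt F τ s)) 0 := low_bb h0 ((low_yt hs).mono (by linarith))
  have hA : Low (c ^ 2 - 1) 0 := (hc0.pow_zero' 2).sub low_one
  have hA' : Low (c' ^ 2 - 1) 0 := (hc0'.pow_zero' 2).sub low_one
  have hAA : Low (c' ^ 2 - 1 - (c ^ 2 - 1)) s := by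
    have := low_pow_sub hc0 hc0' hcc 2
    have e : c' ^ 2 - 1 - (c ^ 2 - 1) = c' ^ 2 - c ^ 2 := by ring
    rwa [e]
  unfold phi
  rw [← Finset.sum_sub_distrib]
  refine Low.sum _ _ fun n _ => ?_
  rw [← Finset.sum_sub_distrib]
  refine Low.sum _ _ fun k _ => ?_
  have e : sc (κ (n, k)) * (tz F 1 0 0 ^ n * ((c' ^ 2 - 1) ^ k.1 * bb τ (yt F τ s) ^ k.2)) -
      sc (κ (n, k)) * (tz F 1 0 0 ^ n * ((c ^ 2 - 1) ^ k.1 * bb τ (yc F τ) ^ k.2)) =
      sc (κ (n, k)) * (tz F 1 0 0 ^ n * ((c' ^ 2 - 1) ^ k.1 *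
        (bb τ (yt F τ s) ^ k.2 - bb τ (yc F τ) ^ k.2) +
        ((c' ^ 2 - 1) ^ k.1 - (c ^ 2 - 1) ^ k.1) * bb τ (yc F τ) ^ k.2)) := by ring
  rw [e]
  have b1 : Low (tz F 1 0 0 ^ n) 0 := ((low_tz (F := F) 1 0 0).mono zero_le_one).pow_zero' n
  have b2 := (hA'.pow_zero' k.1).mul (low_pow_sub hB hB' hbb k.2)
  have b3 := (low_pow_sub hA hA' hAA k.1).mul (hB.pow_zero' k.2)
  rw [zero_add] at b2
  rw [add_zero] at b3
  have b4 := (low_sc (κ (n, k))).mul (b1.mul (b2.add b3))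
  simpa using b4

theorem tube_h [CharZero F] {τ s : ℝ} {c : HR F} (hc : Rt τ (yt F τ s) c) :
    (c ^ 2 - 1) ^ 3 + (c ^ 2 - 1) ^ 2 - bb τ (yt F τ s) ^ 2 - tz F 1 0 0 = tz F (1 + s) 0 1 := by
  have h4 : sc (1 / 2 : F) * sc (1 / 2 : F) * 4 = 1 := by
    have e4 : (4 : HR F) = sc (4 : F) := (map_ofNat sc 4).symm
    rw [e4, ← map_mul, ← map_mul]
    have : (1 / 2 : F) * (1 / 2) * 4 = 1 := by norm_num
    rw [this, map_one]
  have hxy : tz F τ 1 0 * yt F τ s = tz F 1 0 0 + tz F (1 + s) 0 1 := by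
    unfold yt
    have e1 := tz_mul (F := F) τ (1 - τ) 1 0 (-1) 0
    have e2 := tz_mul (F := F) 1 s 0 0 0 1
    have e3 : τ + (1 - τ) = 1 := by ring
    simp only [add_zero, zero_add, e3, add_neg_cancel] at e1 e2
    rw [← mul_assoc, e1, mul_add, mul_one, e2]
  have e : (c ^ 2 - 1) ^ 3 + (c ^ 2 - 1) ^ 2 = (c ^ 3 - c) ^ 2 := by ring
  rw [e, hc.eq]
  unfold bb
  have e5 : (sc (1 / 2 : F) * (tz F τ 1 0 + yt F τ s)) ^ 2 -
      (sc (1 / 2 : F) * (tz F τ 1 0 - yt F τ s)) ^ 2 =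
      (sc (1 / 2 : F) * sc (1 / 2 : F) * 4) * (tz F τ 1 0 * yt F τ s) := by ring
  rw [e5, h4, hxy]
  ring

end Pool.Agent.TH587.NG
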