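import Pool.Agent.TH587.NG.Lead
import Pool.Agent.TH587.NG.Root
import Pool.Agent.TH587.NG.Tube
import Pool.Agent.TH587.NG.Span
import Pool.Agent.TH603.EL.Van3
import Pool.Agent.TH880.NB.Rk

set_option autoImplicit false

namespace Pool.Agent.TH587.NG

open Finset Pool.Agent.TH603.EL Pool.Agent.TH176.Nag Pool.Agent.TH880.NB

variable {F : Type} [Field F]

/-- the value of a polynomial in `A, B` -/
noncomputable def val (A B : HR F) : ((ℤ × ℤ) →₀ HK F) →+ HR F :=
  Finsupp.liftAddHom fun m =>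
    (AddMonoidHom.mulRight (A ^ m.1.toNat * B ^ m.2.toNat)).comp (incl (F := F)).toAddMonoidHom

theorem val_apply (A B : HR F) (f : (ℤ × ℤ) →₀ HK F) :
    val A B f = f.sum fun m r => incl r * (A ^ m.1.toNat * B ^ m.2.toNat) := rfl

theorem val_smul (A B : HR F) (c : HK F) (f : (ℤ × ℤ) →₀ HK F) :
    val A B (c • f) = incl c * val A B f := by
  rw [val_apply, val_apply, Finsupp.sum_smul_index (by simp), Finsupp.mul_sum]
  apply Finsupp.sum_congr
  intro m _
  rw [map_mul, mul_assoc]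

/-- the coordinates -/
noncomputable def UU (A B : HR F) (l : ZMod 3) : HR F := if l = 1 then A else if l = 2 then B else 1

theorem ev_hom (A B : HR F) (d : ℕ) (f : (ℤ × ℤ) →₀ HK F) :
    ev (UU A B) (hom d f) = val A B f := by
  rw [val_apply, hom]
  unfold Finsupp.sum
  rw [map_sum]
  apply Finset.sum_congr rfl
  intro m _
  have h1 : (1 : ZMod 3) ≠ 0 := by decide
  have h2 : (2 : ZMod 3) ≠ 1 := by decide
  have h3 : (0 : ZMod 3) ≠ 2 := by decide
  rw [map_mul, map_mul, map_mul, map_pow, map_pow, map_pow, ev_C, ev_X, ev_X, ev_X]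
  have e0 : UU A B 0 = 1 := by
    unfold UU
    rw [if_neg h1.symm, if_neg h3]
  have e1 : UU A B 1 = A := by
    unfold UU
    rw [if_pos rfl]
  have e2 : UU A B 2 = B := by
    unfold UU
    rw [if_neg h2, if_pos rfl]
  rw [e0, e1, e2, one_pow, one_mul]

/-- the leading coefficient of a combination of elements with distinct leading monomials -/
theorem lead_comb {T : Finset (ℤ × ℤ)} (v : T → HR F) (o : T → ℝ) (r : T → F) (hr : ∀ m, r m ≠ 0)
    (hlow : ∀ m, Low (v m) (o m))
    (hco : ∀ m, (v m).coeff (o m) = AddMonoidAlgebra.single ((m : ℤ × ℤ)) (r m))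
    (c : T → HK F) (hc : c ≠ 0) :
    ∃ a : ℝ, ((∑ m, incl (c m) * v m).coeff a).coeff ≠ 0 ∧
      (↑((∑ m, incl (c m) * v m).coeff a).coeff.support : Set (ℤ × ℤ)) ⊆ ↑T := by
  classical
  obtain ⟨m1, hm1⟩ : ∃ m, c m ≠ 0 := Function.ne_iff.1 hc
  obtain ⟨m0, hm0, hmin⟩ := Finset.exists_min_image (univ.filter fun m => c m ≠ 0)
    (fun m => (c m).order + o m) ⟨m1, by simp [hm1]⟩
  rw [mem_filter] at hm0
  have hlc : ∀ m, Low (c m) (c m).order := fun m a ha => HahnSeries.coeff_eq_zero_of_lt_order ha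
  have hl : ∀ m, Low (incl (c m) * v m) ((c m).order + o m) := fun m => (hlc m).incl.mul (hlow m)
  have hin : ∀ m : T, (incl (c m)).coeff (c m).order =
      AddMonoidAlgebra.single (0 : ℤ × ℤ) ((c m).coeff (c m).order) := by
    intro m
    ext p
    have := cf_incl (c m) (c m).order p.1 p.2
    unfold cf at this
    rw [this, AddMonoidAlgebra.coeff_single, Finsupp.single_apply]
    have h1 : ((0 : ℤ × ℤ) = p) ↔ (p.1 = 0 ∧ p.2 = 0) := by
      rw [Prod.ext_iff]
      exact ⟨fun h => ⟨h.1.symm, h.2.symm⟩, fun h => ⟨h.1.symm, h.2.symm⟩⟩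
    exact if_congr h1.symm rfl rfl
  have hco' : ∀ m, (incl (c m) * v m).coeff ((c m).order + o m) =
      AddMonoidAlgebra.single ((m : ℤ × ℤ)) ((c m).coeff (c m).order * r m) := by
    intro m
    rw [(hlc m).incl.coeff_mul (hlow m), hin, hco, AddMonoidAlgebra.single_mul_single, zero_add]
  set a : ℝ := (c m0).order + o m0 with ha
  have hterm : ∀ m, (incl (c m) * v m).coeff a = if c m ≠ 0 ∧ (c m).order + o m = a then
      AddMonoidAlgebra.single ((m : ℤ × ℤ)) ((c m).coeff (c m).order * r m) else 0 := by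
    intro m
    split_ifs with h
    · rw [← h.2]; exact hco' m
    · by_cases h1 : c m = 0
      · rw [h1, map_zero, zero_mul]; rfl
      · have h2 : a ≤ (c m).order + o m := hmin m (by simp [h1])
        have h3 : a ≠ (c m).order + o m := fun h4 => h ⟨h1, h4.symm⟩
        exact hl m a (lt_of_le_of_ne h2 h3)
  have hsum : ∀ p : ℤ × ℤ, ((∑ m, incl (c m) * v m).coeff a).coeff p =
      ∑ m : T, if (c m ≠ 0 ∧ (c m).order + o m = a) ∧ (m : ℤ × ℤ) = p then
        (c m).coeff (c m).order * r m else 0 := by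
    intro p
    rw [HahnSeries.coeff_sum]
    have : (∑ m : T, (incl (c m) * v m).coeff a).coeff p =
        ∑ m : T, ((incl (c m) * v m).coeff a).coeff p := by
      induction (univ : Finset T) using Finset.induction_on with
      | empty => simp
      | insert q s hq ih => rw [sum_insert hq, sum_insert hq, AddMonoidAlgebra.coeff_add,
          Finsupp.add_apply, ih]
    rw [this]
    apply sum_congr rfl
    intro m _
    rw [hterm m]
    by_cases h : c m ≠ 0 ∧ (c m).order + o m = a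
    · rw [if_pos h, AddMonoidAlgebra.coeff_single, Finsupp.single_apply]
      by_cases h2 : (m : ℤ × ℤ) = p
      · rw [if_pos h2, if_pos ⟨h, h2⟩]
      · rw [if_neg h2, if_neg (fun h3 => h2 h3.2)]
    · rw [if_neg h, if_neg (fun h3 => h h3.1)]
      rfl
  refine ⟨a, ?_, ?_⟩
  · intro h
    have h1 := hsum m0
    rw [h] at h1
    rw [Finset.sum_eq_single m0] at h1
    · rw [if_pos ⟨⟨hm0.2, rfl⟩, rfl⟩] at h1
      have h2 : (c m0).coeff (c m0).order * r m0 ≠ 0 :=
        mul_ne_zero (by rw [Ne, HahnSeries.coeff_order_eq_zero]; exact hm0.2) (hr m0)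
      exact h2 h1.symm
    · intro m _ hne
      rw [if_neg]
      rintro ⟨_, h3⟩
      exact hne (Subtype.ext h3)
    · intro h; exact absurd (mem_univ _) h
  · intro p hp
    have hp' : ((∑ m, incl (c m) * v m).coeff a).coeff p ≠ 0 := by simpa using hp
    rw [hsum p] at hp'
    obtain ⟨m, -, hm⟩ := Finset.exists_ne_zero_of_sum_ne_zero hp'
    have : (c m ≠ 0 ∧ (c m).order + o m = a) ∧ (m : ℤ × ℤ) = p := by
      by_contra h
      rw [if_neg h] at hm
      exact hm rfl
    rw [← this.2]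
    exact m.2

theorem coeff_tz_pow (a : ℝ) (j : ℕ) : tz F a 0 1 ^ j = tz F (j * a) 0 j := by
  unfold tz
  rw [HahnSeries.single_pow, AddMonoidAlgebra.single_pow]
  simp

theorem evp_ne_zero {x y : F} (hx : x ≠ 0) (hy : y ≠ 0) {u : HR F} {δ : ℝ} (hδ : 0 < δ)
    (h : Low (u - 1) δ) : evp hx hy u ≠ 0 := by
  intro h0
  have h1 := congrArg (fun v : HK F => v.coeff 0) h0
  simp only [HahnSeries.coeff_zero] at h1
  rw [evp_coeff] at h1
  have h2 : u.coeff 0 = 1 := by
    have := h 0 hδ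
    rw [HahnSeries.coeff_sub, HahnSeries.coeff_one, if_pos rfl] at this
    exact sub_eq_zero.1 this
  rw [h2, map_one] at h1
  exact one_ne_zero h1

theorem Rk_node {ι : Type} {w : ι → ℕ} {M d N : ℕ} (hM : 2 ≤ M) {τ : ℝ} (h0 : 0 < τ)
    (h1 : τ < 1) (hirr : Irrational τ)
    (h : Rk w (Reg (-(2 * M * (d - 1) * τ)) (2 * M * (d - 1) * (1 - τ)) (4 * M * τ)
      (4 * M * (1 - τ))) N) :
    Rk w {m : ℤ × ℤ | 0 ≤ m.1 ∧ 0 ≤ m.2 ∧ m.1 + M * m.2 ≤ M * (d : ℤ)} N := by
  classical
  obtain ⟨T, hTS, hTN, F, _, _, x, y, hx, hy, hE⟩ := h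
  obtain ⟨⟨c, hc, hcen⟩, htube⟩ := exists_root (F := F) h0 h1
  have hδ : 0 < min τ (1 - τ) := lt_min h0 (by linarith)
  have hM0 : (0 : ℝ) < M := by
    have : 0 < M := by omega
    exact_mod_cast this
  -- the rows
  have hrow : ∀ m : T, ∃ k j : ℕ, (m : ℤ × ℤ).2 = j ∧ d = k + 1 + 2 * j ∧
      -(2 * ((M * k : ℕ) : ℝ) * τ) ≤ (m : ℤ × ℤ).1 ∧
      (((m : ℤ × ℤ).1 : ℤ) : ℝ) ≤ 2 * ((M * k : ℕ) : ℝ) * (1 - τ) := by
    intro m
    obtain ⟨g1, g2, g3⟩ := hTS m.2
    obtain ⟨j, hj⟩ := Int.eq_ofNat_of_zero_le g1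
    rw [hj] at g2 g3
    push_cast at g2 g3
    have hk : 1 + 2 * j ≤ d := by
      by_contra hlt
      have h3 : d + 1 ≤ 1 + 2 * j := by omega
      have h4 : (d : ℝ) + 1 ≤ 1 + 2 * j := by exact_mod_cast h3
      have h5 : 2 * M * ((d : ℝ) - 1 - 2 * j) * (1 - τ) ≥ 2 * M * (2 * j - (d - 1)) * τ := by
        nlinarith
      have h6 : 0 < (2 : ℝ) * j - (d - 1) := by linarith
      have h7 : 2 * M * ((d : ℝ) - 1 - 2 * j) * (1 - τ) < 0 := by
        have : 0 < 2 * M * ((2 : ℝ) * j - (d - 1)) * (1 - τ) := by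
          have : 0 < 1 - τ := by linarith
          positivity
        nlinarith
      have h8 : 0 < 2 * M * ((2 : ℝ) * j - (d - 1)) * τ := by positivity
      linarith
    obtain ⟨k, hk'⟩ := Nat.exists_eq_add_of_le hk
    have hkr : (d : ℝ) = 1 + 2 * j + k := by rw [hk']; push_cast; ring
    refine ⟨k, j, hj, by omega, ?_, ?_⟩
    · push_cast
      rw [hkr] at g2
      nlinarith
    · push_cast
      rw [hkr] at g3
      nlinarith
  choose k j hj hd' hi1 hi2 using hrow
  have hlead : ∀ m : T, ∃ (D : ℕ) (κ : ℕ × ℕ × ℕ → F) (e : ℝ) (r : F), r ≠ 0 ∧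
      Low (phi τ (yc F τ) c (M * k m) D κ) e ∧
      (phi τ (yc F τ) c (M * k m) D κ).coeff e =
        AddMonoidAlgebra.single ((m : ℤ × ℤ).1, 0) r := by
    intro m
    rcases Nat.eq_zero_or_pos (k m) with hk | hk
    · -- the constant one
      have hm1 : (m : ℤ × ℤ).1 = 0 := by
        have g1 := hi1 m
        have g2 := hi2 m
        rw [hk] at g1 g2
        simp only [mul_zero, CharP.cast_eq_zero, zero_mul, neg_zero] at g1 g2
        have : (((m : ℤ × ℤ).1 : ℤ) : ℝ) = 0 := le_antisymm g2 g1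
        exact_mod_cast this
      refine ⟨1, fun _ => 1, 0, 1, one_ne_zero, ?_, ?_⟩
      · rw [hk, mul_zero]
        have : phi τ (yc F τ) c 0 1 (fun _ => (1 : F)) = 1 := by
          simp [phi, Bs]
        rw [this]
        exact low_one
      · rw [hk, mul_zero, hm1]
        have : phi τ (yc F τ) c 0 1 (fun _ => (1 : F)) = 1 := by
          simp [phi, Bs]
        rw [this, HahnSeries.coeff_one, if_pos rfl]
        rfl
    · exact exists_lead h0 h1 hirr hc hcen (by
        have : 0 < M * k m := by positivity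
        omega) (hi1 m) (hi2 m)
  choose D κ e r hr hlow hco using hlead
  obtain ⟨s, hs0, hs⟩ : ∃ s : ℝ, 0 ≤ s ∧ ∀ m, e m < s := by
    refine ⟨1 + ∑ m, |e m|, by positivity, fun m => ?_⟩
    have : |e m| ≤ ∑ m, |e m| :=
      single_le_sum (f := fun m => |e m|) (fun _ _ => abs_nonneg _) (mem_univ m)
    have := le_abs_self (e m)
    linarith
  obtain ⟨c', hc'⟩ := htube s hs0
  set A : HR F := c' ^ 2 with hA
  set B : HR F := bb τ (yt F τ s) + 1 with hB
  let hh : HR F := (c' ^ 2 - 1) ^ 3 + (c' ^ 2 - 1) ^ 2 - bb τ (yt F τ s) ^ 2 - tz F 1 0 0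
  let v : T → HR F := fun m => phi τ (yt F τ s) c' (M * k m) (D m) (κ m) * hh ^ (j m)
  have hlow' : ∀ m, Low (phi τ (yt F τ s) c' (M * k m) (D m) (κ m)) (e m) := by
    intro m
    have h2 := tube_phi h0 h1 hs0 hc hc' (M * k m) (D m) (κ m)
    have h3 := (h2.mono (hs m).le).add (hlow m)
    rwa [sub_add_cancel] at h3
  have hco' : ∀ m, (phi τ (yt F τ s) c' (M * k m) (D m) (κ m)).coeff (e m) =
      AddMonoidAlgebra.single ((m : ℤ × ℤ).1, 0) (r m) := by
    intro m
    have h2 := tube_phi h0 h1 hs0 hc hc' (M * k m) (D m) (κ m) (e m) (hs m)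
    rw [HahnSeries.coeff_sub, hco m] at h2
    exact sub_eq_zero.1 h2
  have hhj : ∀ m : T, hh ^ (j m) = tz F (j m * (1 + s)) 0 (j m) := by
    intro m
    show ((c' ^ 2 - 1) ^ 3 + (c' ^ 2 - 1) ^ 2 - bb τ (yt F τ s) ^ 2 - tz F 1 0 0) ^ (j m) = _
    rw [tube_h hc', coeff_tz_pow]
  have hvlow : ∀ m, Low (v m) (e m + j m * (1 + s)) := by
    intro m
    show Low (phi τ (yt F τ s) c' (M * k m) (D m) (κ m) * hh ^ (j m)) _
    rw [hhj m]
    exact (hlow' m).mul (low_tz _ _ _)
  have hvco : ∀ m, (v m).coeff (e m + j m * (1 + s)) =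
      AddMonoidAlgebra.single ((m : ℤ × ℤ)) (r m) := by
    intro m
    show (phi τ (yt F τ s) c' (M * k m) (D m) (κ m) * hh ^ (j m)).coeff _ = _
    rw [hhj m, (hlow' m).coeff_mul (low_tz _ _ _), hco' m, coeff_tz,
      AddMonoidAlgebra.single_mul_single, mul_one]
    congr 1
    ext
    · simp
    · simp [hj m]
  have hvVS : ∀ m, v m ∈ VS A B M (M * d) := by
    intro m
    have h2 := VS.phi (τ := τ) (y := yt F τ s) (c := c') (m := k m) (j := j m) hM (D m) (κ m)
    rw [← hd' m] at h2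
    exact h2
  choose f hf hfv using hvVS
  have hchar : CharZero (HK F) :=
    charZero_of_injective_ringHom (f := (HahnSeries.C : F →+* HK F)) HahnSeries.C_injective
  have hlc' : Low (c' - 1) (min τ (1 - τ)) := hc'.low
  have hlA : Low (A - 1) (min τ (1 - τ)) := by
    have e1 : A - 1 = (c' - 1) * (c' + 1) := by rw [hA]; ring
    rw [e1]
    have h2 := hlc'.mul ((low_of_rt h0 h1 hc').add low_one)
    simpa using h2
  have hlB : Low (B - 1) (min τ (1 - τ)) := by
    have e1 : B - 1 = bb τ (yt F τ s) := by rw [hB]; ring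
    rw [e1]
    unfold bb yt
    have h2 : Low (sc (1 / 2 : F)) 0 := by
      unfold sc
      exact Low.incl (b := 0) (fun a ha => HahnSeries.coeff_single_of_ne ha.ne)
    have h3 : Low (tz F τ 1 0) (min τ (1 - τ)) := (low_tz _ _ _).mono (min_le_left _ _)
    have h4 : Low (tz F (1 - τ) (-1) 0 * (1 + tz F s 0 1)) (min τ (1 - τ)) := by
      have h5 := (low_tz (F := F) (1 - τ) (-1) 0).mul (low_one.add ((low_tz (F := F) s 0 1).mono hs0))
      rw [add_zero] at h5
      exact h5.mono (min_le_right _ _)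
    have h6 := h2.mul (h3.sub h4)
    rwa [zero_add] at h6
  have hU : ∀ i l, evp (hx i) (hy i) (UU A B l) ≠ 0 := by
    intro i l
    unfold UU
    split_ifs
    · exact evp_ne_zero _ _ hδ hlA
    · exact evp_ne_zero _ _ hδ hlB
    · rw [map_one]; exact one_ne_zero
  have hU0 : ∀ i, evp (hx i) (hy i) (UU A B 0) = 1 := by
    intro i
    have h2 : (1 : ZMod 3) ≠ 0 := by decide
    have h3 : (0 : ZMod 3) ≠ 2 := by decide
    unfold UU
    rw [if_neg h2.symm, if_neg h3, map_one]
  have key : Rk w {m : ℤ × ℤ | 0 ≤ m.1 ∧ 0 ≤ m.2 ∧ m.1 + M * m.2 ≤ M * (d : ℤ)}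
      (Fintype.card T) := by
    refine Rk_of_vectors (K := HK F) (x := fun i => evp (hx i) (hy i) (UU A B 1) /
      evp (hx i) (hy i) (UU A B 0)) (y := fun i => evp (hx i) (hy i) (UU A B 2) /
      evp (hx i) (hy i) (UU A B 0)) (fun i => div_ne_zero (hU i 1) (hU i 0))
      (fun i => div_ne_zero (hU i 2) (hU i 0)) f ?_ ?_
    · intro m p hp
      have := hf m p hp
      push_cast at this
      exact this
    · intro C hC
      by_contra hne
      obtain ⟨a, ha1, ha2⟩ := lead_comb v (fun m => e m + j m * (1 + s)) r hr hvlow hvco C hne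
      have hval : ∑ m, incl (C m) * v m = ev (UU A B) (hom (M * d) (∑ m, C m • f m)) := by
        rw [ev_hom, map_sum]
        apply sum_congr rfl
        intro m _
        rw [val_smul, val_apply, ← hfv m]
      apply ha1
      apply hE
      · exact ha2
      · intro i
        rw [hval]
        refine LM_transfer (hx i) (hy i) (hU i) ?_ (hC i) a
        intro p hp
        obtain ⟨m, hm⟩ : ∃ m, p ∈ (f m).support := by
          by_contra hno
          push Not at hno
          have : (∑ m, C m • f m) p = 0 := by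
            rw [Finsupp.finsetSum_apply]
            apply sum_eq_zero
            intro m _
            rw [Finsupp.smul_apply, Finsupp.notMem_support_iff.1 (hno m), smul_zero]
          exact (Finsupp.mem_support_iff.1 hp) this
        obtain ⟨g1, g2, g3⟩ := hf m p hm
        refine ⟨g1, g2, ?_⟩
        have : p.2 ≤ M * p.2 := by
          have : (1 : ℤ) ≤ M := by exact_mod_cast (by omega : 1 ≤ M)
          nlinarith
        linarith
  rw [Fintype.card_coe, hTN] at key
  exact key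

end Pool.Agent.TH587.NG
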