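import Pool.Agent.TH587.NG.Face
import Pool.Agent.TH587.NG.Exl

/-! Every integer of the interval is a leading exponent (from `Exl` and `Face`). -/

set_option autoImplicit false

namespace Pool.Agent.TH587.NG

open Finset Pool.Agent.TH603.EL

variable {F : Type} [Field F]

theorem exists_lead [CharZero F] {τ : ℝ} (h0 : 0 < τ) (h1 : τ < 1) (hirr : Irrational τ) {c : HR F}
    (hc : Rt τ (yc F τ) c) (hcen : Cen τ c) {l : ℕ} (hl : 1 ≤ l) {i : ℤ}
    (hi1 : -(2 * (l : ℝ) * τ) ≤ i) (hi2 : (i : ℝ) ≤ 2 * (l : ℝ) * (1 - τ)) :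
    ∃ (D : ℕ) (κ : ℕ × ℕ × ℕ → F) (e : ℝ) (r : F), r ≠ 0 ∧
      Low (phi τ (yc F τ) c l D κ) e ∧
      (phi τ (yc F τ) c l D κ).coeff e = AddMonoidAlgebra.single (i, 0) r :=
  Exl.main h0 h1 hirr (fun D κ => Cen.phi hcen l D κ)
    (fun hD hκ => nc h0 h1 hc hcen hD hκ) hl hi1 hi2

end Pool.Agent.TH587.NG
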