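import Pool.Agent.TH587.NG.Asym
import Pool.Agent.TH880.NB.Cls

set_option autoImplicit false

/-! The toric input for all surfaces: `n ≥ 4 r` points on `P(1, 1, r)`, `r ≥ 2`. -/

namespace Pool.Agent.TH587.NG

open Pool.Agent.TH880.NB

theorem PA_all {r n : ℕ} (hr : 2 ≤ r) (hn : 4 * r ≤ n) : PA n 0 r := by
  unfold PA
  rw [zero_add]
  exact AS_all hr hn

end Pool.Agent.TH587.NG
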